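import Pool.Agent.Lib.MP_f612df_an_helper32.Phase

/-!
# MP_f612df_an: main STFT inequality
-/

namespace Pool.Agent.H32SF

open Real MeasureTheory SchwartzMap FourierTransform Filter Topology
open scoped ENNReal ContDiff

lemma exists_window : ∃ ψ : 𝓢(ℝ, ℂ), 0 < mom ψ 0 := by
  let b : ContDiffBump (0 : ℝ) := ⟨1, 2, by norm_num, by norm_num⟩
  have hsupp : HasCompactSupport (fun x => ((b x : ℝ) : ℂ)) := by
    have := b.hasCompactSupport
    exact this.comp_left (g := fun r : ℝ => (r : ℂ)) (by simp)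
  have hsm : ContDiff ℝ ∞ (fun x => ((b x : ℝ) : ℂ)) := by
    exact Complex.ofRealCLM.contDiff.comp b.contDiff
  let ψ : 𝓢(ℝ, ℂ) := hsupp.toSchwartzMap hsm
  refine ⟨ψ, ?_⟩
  unfold mom
  have hψ : ∀ x, ψ x = ((b x : ℝ) : ℂ) := fun x => rfl
  apply integral_pos_of_integrable_nonneg_nonzero (x := 0)
  · have := ψ.continuous
    fun_prop
  · exact integrable_moment ψ 0
  · intro x; positivity
  · have : b 0 = 1 := b.one_of_mem_closedBall (by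
      rw [Metric.mem_closedBall, dist_self]; exact b.rIn_pos.le)
    simp [hψ, this]

/-- `DD_ge` in real numbers -/
lemma DD_ge_real {R : ℝ} {N : ℕ} {w : ℝ → ℝ} (hR : 1 ≤ R) (hw : Adm R N w) (f ψ : 𝓢(ℝ, ℂ))
    {ε c k m : ℝ} (hε : 0 < ε) (hc : c = mom ψ 0) (hk : mom ψ (2 * N) / R ≤ k) (hkc : k ≤ c)
    (hm : mom (derivCLM ℂ ℂ ψ) 0 + mom (derivCLM ℂ ℂ ψ) (2 * N) / R ≤ m)
    (hD : DD w f ψ ≠ ⊤) :
    (c - k) * (en w (deriv f)).toReal ≤ (1 + ε) * (DD w f ψ).toReal +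
      (1 + 1 / ε) * (m * (en w f).toReal) := by
  have hR0 : 0 < R := by linarith
  have h := DD_ge hR hw f ψ hε
  have hm0 : 0 ≤ mom (derivCLM ℂ ℂ ψ) 0 + mom (derivCLM ℂ ℂ ψ) (2 * N) / R :=
    add_nonneg (mom_nonneg _ _) (div_nonneg (mom_nonneg _ _) hR0.le)
  have hm1 : 0 ≤ m := hm0.trans hm
  have hfin : en w f ≠ ⊤ := (en_lt_top hR hw f).ne
  have hfin' : en w (deriv f) ≠ ⊤ := (en_lt_top hR hw (derivCLM ℂ ℂ f)).ne
  have h2 : ENNReal.ofReal (c - k) * en w (deriv f) ≤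
      ENNReal.ofReal (1 + ε) * DD w f ψ +
      ENNReal.ofReal (1 + 1 / ε) * (ENNReal.ofReal m * en w f) := by
    refine le_trans ?_ (h.trans ?_)
    · gcongr
      linarith
    · gcongr
  have h3 := ENNReal.toReal_mono (by
    apply ENNReal.add_ne_top.2
    constructor
    · exact ENNReal.mul_ne_top ENNReal.ofReal_ne_top hD
    · exact ENNReal.mul_ne_top ENNReal.ofReal_ne_top
        (ENNReal.mul_ne_top ENNReal.ofReal_ne_top hfin)) h2
  rw [ENNReal.toReal_add (ENNReal.mul_ne_top ENNReal.ofReal_ne_top hD)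
    (ENNReal.mul_ne_top ENNReal.ofReal_ne_top (ENNReal.mul_ne_top ENNReal.ofReal_ne_top hfin)),
    ENNReal.toReal_mul, ENNReal.toReal_mul, ENNReal.toReal_mul, ENNReal.toReal_mul,
    ENNReal.toReal_ofReal (by linarith), ENNReal.toReal_ofReal (by linarith),
    ENNReal.toReal_ofReal (by positivity), ENNReal.toReal_ofReal hm1] at h3
  exact h3

lemma UU_le_real {R : ℝ} {N : ℕ} {w : ℝ → ℝ} (hR : 1 ≤ R) (hw : Adm R N w) (f ψ : 𝓢(ℝ, ℂ))
    {c k : ℝ} (hc : c = mom ψ 0) (hk : mom ψ (2 * N) / R ≤ k) :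
    (UU w f ψ).toReal ≤ (c + k) * (en w f).toReal := by
  have hR0 : 0 < R := by linarith
  have h0 : 0 ≤ mom ψ (2 * N) / R := div_nonneg (mom_nonneg _ _) hR0.le
  have hc0 : 0 ≤ c := by rw [hc]; exact mom_nonneg _ _
  have hfin : en w f ≠ ⊤ := (en_lt_top hR hw f).ne
  have h2 : UU w f ψ ≤ ENNReal.ofReal (c + k) * en w f := by
    refine (UU_le hR hw f ψ).trans ?_
    gcongr
    linarith
  have h3 := ENNReal.toReal_mono (ENNReal.mul_ne_top ENNReal.ofReal_ne_top hfin) h2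
  rwa [ENNReal.toReal_mul, ENNReal.toReal_ofReal (by linarith)] at h3

lemma UU_ne_top {R : ℝ} {N : ℕ} {w : ℝ → ℝ} (hR : 1 ≤ R) (hw : Adm R N w) (f ψ : 𝓢(ℝ, ℂ)) :
    UU w f ψ ≠ ⊤ :=
  ne_top_of_le_ne_top (ENNReal.mul_ne_top ENNReal.ofReal_ne_top (en_lt_top hR hw f).ne)
    (UU_le hR hw f ψ)

lemma en_dwt_real {p R : ℝ} {M N : ℕ} {T : ℝ} (hp : 1 ≤ p) (hR : 1 ≤ R) (hT : 0 < T)
    (hN : p * (M + 1) ≤ N) (f : 𝓢(ℝ, ℂ)) :
    (en (dwt p R M T) f).toReal ≤ (1 / R ^ (p - 1)) ^ 2 * (en (wt p R M T) f).toReal := by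
  have hR0 : 0 < R := by linarith
  have h := en_dwt_le (M := M) hp hR0 hT f
  have hfin : en (wt p R M T) f ≠ ⊤ := (en_lt_top hR (adm_wt (by linarith) hR0 hT hN) f).ne
  have h3 := ENNReal.toReal_mono (ENNReal.mul_ne_top ENNReal.ofReal_ne_top hfin) h
  rwa [ENNReal.toReal_mul, ENNReal.toReal_ofReal (by positivity)] at h3

/-- the main STFT inequality -/
theorem stft_main {p q : ℝ} (hp : 1 < p) (hq : 1 < q) (hpq : 1 / p + 1 / q = 1) (M : ℕ)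
    {δ : ℝ} (hδ : 0 < δ) :
    ∃ R₀ : ℝ, 1 ≤ R₀ ∧ ∀ R ≥ R₀, ∀ T > 0, ∀ f : 𝓢(ℝ, ℂ),
      q * (en (dwt p R M T) (deriv f)).toReal +
        p * (en (dwt q R M T) (deriv (𝓕 f : 𝓢(ℝ, ℂ)))).toReal ≤
      4 * π ^ 2 * (1 + δ) *
        (q * (en (wt p R M T) f).toReal + p * (en (wt q R M T) (𝓕 f : 𝓢(ℝ, ℂ))).toReal) := by
  obtain ⟨ψ, hψ⟩ := exists_window
  have hp0 : 0 < p := by linarith
  have hq0 : 0 < q := by linarith
  set ψ' : 𝓢(ℝ, ℂ) := 𝓕⁻ ψ with hψ'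
  set c := mom ψ 0 with hc
  have hc' : c = mom ψ' 0 := (mom_congr_fourierInv ψ).symm
  obtain ⟨N, hN⟩ := exists_nat_ge (max (p * (M + 1)) (q * (M + 1)))
  have hNp : p * (M + 1) ≤ N := (le_max_left _ _).trans hN
  have hNq : q * (M + 1) ≤ N := (le_max_right _ _).trans hN
  set K := max (mom ψ (2 * N)) (mom ψ' (2 * N)) with hK
  have hK0 : 0 ≤ K := le_max_of_le_left (mom_nonneg _ _)
  set m := max (mom (derivCLM ℂ ℂ ψ) 0 + mom (derivCLM ℂ ℂ ψ) (2 * N))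
    (mom (derivCLM ℂ ℂ ψ') 0 + mom (derivCLM ℂ ℂ ψ') (2 * N)) with hm
  have hm0 : 0 ≤ m := le_max_of_le_left (add_nonneg (mom_nonneg _ _) (mom_nonneg _ _))
  set ε := δ / 2 with hε
  have hε0 : 0 < ε := by positivity
  set ν := min (p - 1) (q - 1) with hν
  have hν0 : 0 < ν := by rw [hν]; apply lt_min <;> linarith
  -- limits
  have hlim1 : Tendsto (fun R : ℝ => K / R) atTop (𝓝 0) := tendsto_const_nhds.div_atTop tendsto_id
  have hlim2 : Tendsto (fun R : ℝ => (1 + 1 / ε) * (m * (1 / R ^ ν) ^ 2)) atTop (𝓝 0) := by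
    have h1 : Tendsto (fun R : ℝ => 1 / R ^ ν) atTop (𝓝 0) :=
      tendsto_const_nhds.div_atTop (tendsto_rpow_atTop hν0)
    have := ((h1.pow 2).const_mul m).const_mul (1 + 1 / ε)
    simpa using this
  have hlim3 : Tendsto (fun R : ℝ => ((1 + ε) * (4 * π ^ 2) * (c + K / R) +
      (1 + 1 / ε) * (m * (1 / R ^ ν) ^ 2)) / (c - K / R)) atTop
      (𝓝 (((1 + ε) * (4 * π ^ 2) * (c + 0) + 0) / (c - 0))) := by
    apply Tendsto.div
    · exact ((tendsto_const_nhds.add hlim1).const_mul _).add hlim2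
    · exact tendsto_const_nhds.sub hlim1
    · simpa using hψ.ne'
  have hval : ((1 + ε) * (4 * π ^ 2) * (c + 0) + 0) / (c - 0) < 4 * π ^ 2 * (1 + δ) := by
    rw [add_zero, add_zero, sub_zero, mul_div_assoc, div_self hψ.ne', mul_one]
    have : 0 < 4 * π ^ 2 := by positivity
    nlinarith
  have hev1 := hlim3.eventually_lt_const hval
  have hev2 := hlim1.eventually_lt_const hψ
  obtain ⟨R₀, hR₀⟩ := eventually_atTop.1 ((hev1.and hev2).and (eventually_ge_atTop (1 : ℝ)))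
  refine ⟨max R₀ 1, le_max_right _ _, ?_⟩
  intro R hR T hT f
  obtain ⟨⟨hR1, hR2⟩, hR3⟩ := hR₀ R ((le_max_left _ _).trans hR)
  have hR0 : 0 < R := by linarith
  have adm_u₁ := adm_wt (M := M) hp0.le hR0 hT hNp
  have adm_u₂ := adm_wt (M := M) hq0.le hR0 hT hNq
  have adm_w₁ := adm_dwt (M := M) hp.le hR0 hT hNp
  have adm_w₂ := adm_dwt (M := M) hq.le hR0 hT hNq
  have hphase := phase_ineq adm_w₁.cont adm_w₂.cont adm_u₁.cont adm_u₂.cont hq0.le hp0.le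
    (phase_symbol hp hq hpq hR0 hT) f ψ
  have hU1 := UU_ne_top hR3 adm_u₁ f ψ
  have hU2 := UU_ne_top hR3 adm_u₂ (𝓕 f) ψ'
  have hRHS : ENNReal.ofReal (4 * π ^ 2) * (ENNReal.ofReal q * UU (wt p R M T) f ψ +
      ENNReal.ofReal p * UU (wt q R M T) (𝓕 f) ψ') ≠ ⊤ := by
    apply ENNReal.mul_ne_top ENNReal.ofReal_ne_top
    apply ENNReal.add_ne_top.2
    exact ⟨ENNReal.mul_ne_top ENNReal.ofReal_ne_top hU1,
      ENNReal.mul_ne_top ENNReal.ofReal_ne_top hU2⟩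
  have hLHS := ne_top_of_le_ne_top hRHS hphase
  have hD1 : DD (dwt p R M T) f ψ ≠ ⊤ := by
    intro h
    apply hLHS
    rw [h, ENNReal.mul_top (by simpa using hq0)]
    simp
  have hD2 : DD (dwt q R M T) (𝓕 f) ψ' ≠ ⊤ := by
    intro h
    apply hLHS
    rw [h, ENNReal.mul_top (by simpa using hp0)]
    simp
  have hphase' := ENNReal.toReal_mono hRHS hphase
  rw [ENNReal.toReal_add (ENNReal.mul_ne_top ENNReal.ofReal_ne_top hD1)
    (ENNReal.mul_ne_top ENNReal.ofReal_ne_top hD2), ENNReal.toReal_mul, ENNReal.toReal_mul,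
    ENNReal.toReal_mul, ENNReal.toReal_add (ENNReal.mul_ne_top ENNReal.ofReal_ne_top hU1)
    (ENNReal.mul_ne_top ENNReal.ofReal_ne_top hU2), ENNReal.toReal_mul, ENNReal.toReal_mul,
    ENNReal.toReal_ofReal hq0.le, ENNReal.toReal_ofReal hp0.le,
    ENNReal.toReal_ofReal (by positivity)] at hphase'
  have hk1 : mom ψ (2 * N) / R ≤ K / R := by gcongr; exact le_max_left _ _
  have hk2 : mom ψ' (2 * N) / R ≤ K / R := by gcongr; exact le_max_right _ _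
  have hRinv : ∀ a : ℝ, 0 ≤ a → a / R ≤ a := fun a ha => div_le_self ha hR3
  have hm1 : mom (derivCLM ℂ ℂ ψ) 0 + mom (derivCLM ℂ ℂ ψ) (2 * N) / R ≤ m := by
    refine le_trans ?_ (le_max_left _ _)
    have := hRinv _ (mom_nonneg (derivCLM ℂ ℂ ψ) (2 * N))
    linarith
  have hm2 : mom (derivCLM ℂ ℂ ψ') 0 + mom (derivCLM ℂ ℂ ψ') (2 * N) / R ≤ m := by
    refine le_trans ?_ (le_max_right _ _)
    have := hRinv _ (mom_nonneg (derivCLM ℂ ℂ ψ') (2 * N))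
    linarith
  have g1 := DD_ge_real hR3 adm_w₁ f ψ hε0 hc hk1 hR2.le hm1 hD1
  have g2 := DD_ge_real hR3 adm_w₂ (𝓕 f) ψ' hε0 hc' hk2 hR2.le hm2 hD2
  have d1 := en_dwt_real (M := M) hp.le hR3 hT hNp f
  have d2 := en_dwt_real (M := M) hq.le hR3 hT hNq (𝓕 f)
  have hpw1 : R ^ ν ≤ R ^ (p - 1) := rpow_le_rpow_of_exponent_le hR3 (min_le_left _ _)
  have hpw2 : R ^ ν ≤ R ^ (q - 1) := rpow_le_rpow_of_exponent_le hR3 (min_le_right _ _)
  have hRν : 0 < R ^ ν := rpow_pos_of_pos hR0 _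
  have hi1 : (1 / R ^ (p - 1)) ^ 2 ≤ (1 / R ^ ν) ^ 2 := by gcongr
  have hi2 : (1 / R ^ (q - 1)) ^ 2 ≤ (1 / R ^ ν) ^ 2 := by gcongr
  have ha0 : 0 ≤ (en (wt p R M T) f).toReal := ENNReal.toReal_nonneg
  have hb0 : 0 ≤ (en (wt q R M T) (𝓕 f : 𝓢(ℝ, ℂ))).toReal := ENNReal.toReal_nonneg
  refine real_combine (c := c) (k := K / R) (k' := (1 + 1 / ε) * (m * (1 / R ^ ν) ^ 2))
    (ε := ε) hR2 hp0 hq0 ha0 hb0 hε0 ?_ ?_ hphase'
    (UU_le_real hR3 adm_u₁ f ψ hc hk1) (UU_le_real hR3 adm_u₂ (𝓕 f) ψ' hc' hk2) hR1.le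
  · refine g1.trans ?_
    have : m * (en (dwt p R M T) f).toReal ≤ m * ((1 / R ^ ν) ^ 2 * (en (wt p R M T) f).toReal) := by
      apply mul_le_mul_of_nonneg_left _ hm0
      exact d1.trans (mul_le_mul_of_nonneg_right hi1 ha0)
    have h1ε : 0 < 1 + 1 / ε := by positivity
    nlinarith
  · refine g2.trans ?_
    have : m * (en (dwt q R M T) (𝓕 f : 𝓢(ℝ, ℂ))).toReal ≤
        m * ((1 / R ^ ν) ^ 2 * (en (wt q R M T) (𝓕 f : 𝓢(ℝ, ℂ))).toReal) := by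
      apply mul_le_mul_of_nonneg_left _ hm0
      exact d2.trans (mul_le_mul_of_nonneg_right hi2 hb0)
    have h1ε : 0 < 1 + 1 / ε := by positivity
    nlinarith

end Pool.Agent.H32SF
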