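import Pool.Agent.Lib.MP_f612df_an_helper32.GapSum
import Pool.Agent.Lib.MP_f612df_an_helper32.StftMain

/-!
# MP_f612df_an: the a-priori inequality, uniform in the truncation parameter `T`
-/

namespace Pool.Agent.H32SF

open Real MeasureTheory SchwartzMap FourierTransform Filter Topology Set
open scoped ENNReal

lemma en_one (f : 𝓢(ℝ, ℂ)) : en 1 f = ENNReal.ofReal (mom f 0) := by
  rw [← lintegral_sq_mom]
  unfold en
  simp

lemma en_one_fourier (f : 𝓢(ℝ, ℂ)) : en 1 (𝓕 f : 𝓢(ℝ, ℂ)) = en 1 f := by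
  unfold en
  simp only [Pi.one_apply, one_mul]
  exact lintegral_fourier_sq f

theorem apriori {p q : ℝ} (hp : 1 < p) (hq : 1 < q) (hpq : 1 / p + 1 / q = 1)
    {x y : ℤ → ℝ} (hx : SuperC p x) (hy : SuperC q y) (M : ℕ) :
    ∃ R : ℝ, 1 ≤ R ∧ ∃ C : ℝ, 0 < C ∧ ∀ T > 0, ∀ f : 𝓢(ℝ, ℂ),
      en (wt p R M T) f + en (wt q R M T) (𝓕 f : 𝓢(ℝ, ℂ)) ≤
      ENNReal.ofReal C * (sn (wt p R M T) x f + sn (wt q R M T) y (𝓕 f : 𝓢(ℝ, ℂ)) + en 1 f) := by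
  have hp0 : 0 < p := by linarith
  have hq0 : 0 < q := by linarith
  obtain ⟨k₁, hk₁0, hk₁1, hk₁⟩ := gap_main hp hx
  obtain ⟨k₂, hk₂0, hk₂1, hk₂⟩ := gap_main hq hy
  set k := max k₁ k₂ with hk
  have hk0 : 0 < k := lt_max_of_lt_left hk₁0
  have hk1 : k < 1 := max_lt hk₁1 hk₂1
  set δ := (1 - k) / (2 * k) with hδ
  have hδ0 : 0 < δ := by
    rw [hδ]; apply div_pos <;> linarith
  have hkδ : k * (1 + δ) = (1 + k) / 2 := by
    rw [hδ]; field_simp; ring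
  obtain ⟨R, hR, hmain⟩ := stft_main hp hq hpq M hδ0
  have hR0 : 0 < R := by linarith
  obtain ⟨C₁, hC₁0, hC₁⟩ := hk₁ R hR M
  obtain ⟨C₂, hC₂0, hC₂⟩ := hk₂ R hR M
  obtain ⟨N, hN⟩ := exists_nat_ge (max (p * (M + 1)) (q * (M + 1)))
  have hNp : p * (M + 1) ≤ N := (le_max_left _ _).trans hN
  have hNq : q * (M + 1) ≤ N := (le_max_right _ _).trans hN
  -- final constant
  set C := 2 * (q * C₁ + p * C₂ + 1) * 2 / ((1 - k) * min p q) with hC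
  have hmin : 1 < min p q := lt_min hp hq
  have h1k : 0 < 1 - k := by linarith
  have hC0 : 0 < C := by
    rw [hC]; positivity
  refine ⟨R, hR, C, hC0, ?_⟩
  intro T hT f
  set S₁ := sn (wt p R M T) x f with hS₁
  set S₂ := sn (wt q R M T) y (𝓕 f : 𝓢(ℝ, ℂ)) with hS₂
  by_cases hS₁t : S₁ = ⊤
  · rw [hS₁t]; simp [ENNReal.mul_top, hC0]
  by_cases hS₂t : S₂ = ⊤
  · rw [hS₂t]; simp [ENNReal.mul_top, hC0]
  have adu₁ := adm_wt (M := M) hp0.le hR0 hT hNp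
  have adu₂ := adm_wt (M := M) hq0.le hR0 hT hNq
  have adw₁ := adm_dwt (M := M) hp.le hR0 hT hNp
  have adw₂ := adm_dwt (M := M) hq.le hR0 hT hNq
  have fA : en (wt p R M T) f ≠ ⊤ := (en_lt_top hR adu₁ f).ne
  have fB : en (wt q R M T) (𝓕 f : 𝓢(ℝ, ℂ)) ≠ ⊤ := (en_lt_top hR adu₂ (𝓕 f)).ne
  have fG : en (dwt p R M T) (deriv f) ≠ ⊤ := (en_lt_top hR adw₁ (derivCLM ℂ ℂ f)).ne
  have fH : en (dwt q R M T) (deriv (𝓕 f : 𝓢(ℝ, ℂ))) ≠ ⊤ :=
    (en_lt_top hR adw₂ (derivCLM ℂ ℂ (𝓕 f))).ne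
  have fE : en 1 f ≠ ⊤ := by rw [en_one]; exact ENNReal.ofReal_ne_top
  have g1 := hC₁ T hT f
  have g2 := hC₂ T hT (𝓕 f)
  rw [en_one_fourier] at g2
  have g3 := hmain R le_rfl T hT f
  have g1' := ENNReal.toReal_mono (by
    apply ENNReal.add_ne_top.2
    exact ⟨ENNReal.mul_ne_top ENNReal.ofReal_ne_top fG,
      ENNReal.mul_ne_top ENNReal.ofReal_ne_top (ENNReal.add_ne_top.2 ⟨hS₁t, fE⟩)⟩) g1
  have g2' := ENNReal.toReal_mono (by
    apply ENNReal.add_ne_top.2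
    exact ⟨ENNReal.mul_ne_top ENNReal.ofReal_ne_top fH,
      ENNReal.mul_ne_top ENNReal.ofReal_ne_top (ENNReal.add_ne_top.2 ⟨hS₂t, fE⟩)⟩) g2
  rw [ENNReal.toReal_add (ENNReal.mul_ne_top ENNReal.ofReal_ne_top fG)
    (ENNReal.mul_ne_top ENNReal.ofReal_ne_top (ENNReal.add_ne_top.2 ⟨hS₁t, fE⟩)),
    ENNReal.toReal_mul, ENNReal.toReal_mul, ENNReal.toReal_add hS₁t fE,
    ENNReal.toReal_ofReal (by positivity), ENNReal.toReal_ofReal hC₁0] at g1'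
  rw [ENNReal.toReal_add (ENNReal.mul_ne_top ENNReal.ofReal_ne_top fH)
    (ENNReal.mul_ne_top ENNReal.ofReal_ne_top (ENNReal.add_ne_top.2 ⟨hS₂t, fE⟩)),
    ENNReal.toReal_mul, ENNReal.toReal_mul, ENNReal.toReal_add hS₂t fE,
    ENNReal.toReal_ofReal (by positivity), ENNReal.toReal_ofReal hC₂0] at g2'
  set A := (en (wt p R M T) f).toReal with hA
  set B := (en (wt q R M T) (𝓕 f : 𝓢(ℝ, ℂ))).toReal with hB
  set G := (en (dwt p R M T) (deriv f)).toReal with hG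
  set H := (en (dwt q R M T) (deriv (𝓕 f : 𝓢(ℝ, ℂ)))).toReal with hH
  set s₁ := S₁.toReal with hs₁
  set s₂ := S₂.toReal with hs₂
  set E := (en 1 f).toReal with hE
  have hA0 : 0 ≤ A := ENNReal.toReal_nonneg
  have hB0 : 0 ≤ B := ENNReal.toReal_nonneg
  have hG0 : 0 ≤ G := ENNReal.toReal_nonneg
  have hH0 : 0 ≤ H := ENNReal.toReal_nonneg
  have hs₁0 : 0 ≤ s₁ := ENNReal.toReal_nonneg
  have hs₂0 : 0 ≤ s₂ := ENNReal.toReal_nonneg
  have hE0 : 0 ≤ E := ENNReal.toReal_nonneg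
  have hπ2 : 0 < 4 * π ^ 2 := by positivity
  have e1 : k₁ / (4 * π ^ 2) * G ≤ k / (4 * π ^ 2) * G := by
    have : k₁ ≤ k := le_max_left _ _
    gcongr
  have e2 : k₂ / (4 * π ^ 2) * H ≤ k / (4 * π ^ 2) * H := by
    have : k₂ ≤ k := le_max_right _ _
    gcongr
  have e3 : q * A + p * B ≤ k / (4 * π ^ 2) * (q * G + p * H) +
      (q * C₁ + p * C₂) * (s₁ + s₂ + E) := by
    have i1 : q * A ≤ q * (k / (4 * π ^ 2) * G + C₁ * (s₁ + E)) := by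
      apply mul_le_mul_of_nonneg_left _ hq0.le
      linarith
    have i2 : p * B ≤ p * (k / (4 * π ^ 2) * H + C₂ * (s₂ + E)) := by
      apply mul_le_mul_of_nonneg_left _ hp0.le
      linarith
    have i3 : q * (C₁ * (s₁ + E)) ≤ q * C₁ * (s₁ + s₂ + E) := by
      have : 0 ≤ q * C₁ := by positivity
      nlinarith
    have i4 : p * (C₂ * (s₂ + E)) ≤ p * C₂ * (s₁ + s₂ + E) := by
      have : 0 ≤ p * C₂ := by positivity
      nlinarith
    nlinarith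
  have e4 : k / (4 * π ^ 2) * (q * G + p * H) ≤ (1 + k) / 2 * (q * A + p * B) := by
    calc k / (4 * π ^ 2) * (q * G + p * H) ≤
        k / (4 * π ^ 2) * (4 * π ^ 2 * (1 + δ) * (q * A + p * B)) := by gcongr
      _ = k * (1 + δ) * (q * A + p * B) := by field_simp
      _ = _ := by rw [hkδ]
  have e5 : (1 - k) / 2 * (q * A + p * B) ≤ (q * C₁ + p * C₂) * (s₁ + s₂ + E) := by linarith
  have e6 : min p q * (A + B) ≤ q * A + p * B := by
    have := min_le_left p q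
    have := min_le_right p q
    nlinarith
  have e7 : A + B ≤ C * (s₁ + s₂ + E) := by
    have hpos : 0 < (1 - k) * min p q := by positivity
    rw [hC, div_mul_eq_mul_div, le_div_iff₀ hpos]
    have i1 : (1 - k) * (min p q * (A + B)) ≤ (1 - k) * (q * A + p * B) := by gcongr
    have i2 : 0 ≤ s₁ + s₂ + E := by positivity
    have i3 : (1 - k) * (q * A + p * B) ≤ 2 * ((q * C₁ + p * C₂) * (s₁ + s₂ + E)) := by linarith
    have i4 : 0 ≤ (q * C₁ + p * C₂) * (s₁ + s₂ + E) := by positivity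
    nlinarith
  have fR : ENNReal.ofReal C * (S₁ + S₂ + en 1 f) ≠ ⊤ :=
    ENNReal.mul_ne_top ENNReal.ofReal_ne_top
      (ENNReal.add_ne_top.2 ⟨ENNReal.add_ne_top.2 ⟨hS₁t, hS₂t⟩, fE⟩)
  rw [← ENNReal.toReal_le_toReal (ENNReal.add_ne_top.2 ⟨fA, fB⟩) fR,
    ENNReal.toReal_add fA fB, ENNReal.toReal_mul, ENNReal.toReal_ofReal hC0.le,
    ENNReal.toReal_add (ENNReal.add_ne_top.2 ⟨hS₁t, hS₂t⟩) fE, ENNReal.toReal_add hS₁t hS₂t]
  exact e7

end Pool.Agent.H32SF
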