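import Pool.Agent.Lib.MP_f612df_an_helper32.Stft

/-!
# MP_f612df_an: weighted energy inequalities for the STFT
-/

namespace Pool.Agent.H32SF

open Real MeasureTheory SchwartzMap FourierTransform
open scoped ENNReal

/-- weighted energy -/
noncomputable def en (w : ℝ → ℝ) (f : ℝ → ℂ) : ℝ≥0∞ :=
  ∫⁻ t, ENNReal.ofReal ((w t * ‖f t‖) ^ 2)

/-- weighted STFT energy, weight in the time variable -/
noncomputable def UU (w : ℝ → ℝ) (f ψ : 𝓢(ℝ, ℂ)) : ℝ≥0∞ :=
  ∫⁻ x, ∫⁻ ξ, ENNReal.ofReal ((w x * ‖V f ψ x ξ‖) ^ 2)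

/-- weighted STFT derivative energy -/
noncomputable def DD (w : ℝ → ℝ) (f ψ : 𝓢(ℝ, ℂ)) : ℝ≥0∞ :=
  ∫⁻ x, ∫⁻ ξ, ENNReal.ofReal ((w x * (2 * π * |ξ| * ‖V f ψ x ξ‖)) ^ 2)

lemma bern {l s : ℝ} (hl0 : 0 ≤ l) (hl1 : l ≤ 1) (hs : 0 ≤ s) (n : ℕ) :
    (1 + l * s) ^ n - 1 ≤ l * ((1 + s) ^ n - 1) := by
  induction n with
  | zero => simp
  | succ n ih =>
    have h0 : 0 ≤ (1 + l * s) ^ n - 1 := by
      have : (1 : ℝ) ≤ (1 + l * s) ^ n := one_le_pow₀ (by nlinarith)
      linarith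
    have h1 : 1 + l * s ≤ 1 + s := by nlinarith
    calc (1 + l * s) ^ (n + 1) - 1 = (1 + l * s) * ((1 + l * s) ^ n - 1) + l * s := by ring
      _ ≤ (1 + s) * ((1 + l * s) ^ n - 1) + l * s := by gcongr
      _ ≤ (1 + s) * (l * ((1 + s) ^ n - 1)) + l * s := by gcongr
      _ = l * ((1 + s) ^ (n + 1) - 1) := by ring

lemma pow_R_le {R : ℝ} (hR : 1 ≤ R) (s : ℝ) (n : ℕ) :
    (1 + |s| / R) ^ n - 1 ≤ (1 / R) * (1 + |s|) ^ n := by
  have h := bern (l := 1 / R) (s := |s|) (by positivity)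
    (by rw [div_le_one (by linarith)]; exact hR) (abs_nonneg s) n
  have e : 1 + 1 / R * |s| = 1 + |s| / R := by ring
  rw [e] at h
  have h2 : 0 < 1 / R := by positivity
  nlinarith

/-- the Schwartz moment integrand -/
lemma integrable_moment (F : 𝓢(ℝ, ℂ)) (n : ℕ) :
    Integrable (fun s => (1 + |s|) ^ n * ‖F s‖ ^ 2) := by
  obtain ⟨C, hC⟩ : ∃ C, ∀ s, ‖F s‖ ≤ C := ⟨_, fun s => F.norm_le_seminorm ℝ s⟩
  have hC0 : 0 ≤ C := le_trans (norm_nonneg _) (hC 0)
  have h1 : Integrable (fun s => 2 ^ (n - 1) * (1 * ‖F s‖ + ‖s‖ ^ n * ‖F s‖) * C) := by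
    apply Integrable.mul_const
    apply Integrable.const_mul
    apply Integrable.add
    · simpa using F.integrable.norm
    · exact F.integrable_pow_mul volume n
  refine h1.mono' ?_ (ae_of_all _ fun s => ?_)
  · apply Continuous.aestronglyMeasurable
    have := F.continuous
    fun_prop
  · rw [Real.norm_of_nonneg (by positivity)]
    have h2 : (1 + |s|) ^ n ≤ 2 ^ (n - 1) * (1 ^ n + |s| ^ n) := add_pow_le zero_le_one (abs_nonneg s) n
    have h3 := hC s
    rw [Real.norm_eq_abs, one_pow] at *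
    calc (1 + |s|) ^ n * ‖F s‖ ^ 2 = (1 + |s|) ^ n * ‖F s‖ * ‖F s‖ := by ring
      _ ≤ (2 ^ (n - 1) * (1 + |s| ^ n)) * ‖F s‖ * C := by gcongr
      _ = _ := by ring

/-- moments -/
noncomputable def mom (F : 𝓢(ℝ, ℂ)) (n : ℕ) : ℝ := ∫ s, (1 + |s|) ^ n * ‖F s‖ ^ 2

lemma mom_nonneg (F : 𝓢(ℝ, ℂ)) (n : ℕ) : 0 ≤ mom F n :=
  integral_nonneg fun s => by positivity

lemma lintegral_mom (F : 𝓢(ℝ, ℂ)) (n : ℕ) :
    ∫⁻ s, ENNReal.ofReal ((1 + |s|) ^ n * ‖F s‖ ^ 2) = ENNReal.ofReal (mom F n) :=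
  (ofReal_integral_eq_lintegral_ofReal (integrable_moment F n)
    (ae_of_all _ fun _ => by positivity)).symm

lemma lintegral_sq_mom (F : 𝓢(ℝ, ℂ)) :
    ∫⁻ s, ENNReal.ofReal (‖F s‖ ^ 2) = ENNReal.ofReal (mom F 0) := by
  rw [← lintegral_mom]; simp

lemma lintegral_momR_sub (F : 𝓢(ℝ, ℂ)) (n : ℕ) {R : ℝ} (hR : 1 ≤ R) :
    ∫⁻ s, ENNReal.ofReal (((1 + |s| / R) ^ n - 1) * ‖F s‖ ^ 2) ≤
      ENNReal.ofReal (mom F n / R) := by
  have hR0 : 0 < R := by linarith
  calc ∫⁻ s, ENNReal.ofReal (((1 + |s| / R) ^ n - 1) * ‖F s‖ ^ 2)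
      ≤ ∫⁻ s, ENNReal.ofReal (1 / R) * ENNReal.ofReal ((1 + |s|) ^ n * ‖F s‖ ^ 2) := by
        apply lintegral_mono
        intro s
        dsimp only
        rw [← ENNReal.ofReal_mul (by positivity)]
        apply ENNReal.ofReal_le_ofReal
        have := pow_R_le hR s n
        calc ((1 + |s| / R) ^ n - 1) * ‖F s‖ ^ 2 ≤ (1 / R * (1 + |s|) ^ n) * ‖F s‖ ^ 2 := by gcongr
          _ = _ := by ring
    _ = ENNReal.ofReal (1 / R) * ENNReal.ofReal (mom F n) := by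
        rw [lintegral_const_mul', lintegral_mom]
        exact ENNReal.ofReal_ne_top
    _ = ENNReal.ofReal (mom F n / R) := by
        rw [← ENNReal.ofReal_mul (by positivity)]
        congr 1; ring

lemma lintegral_momR (F : 𝓢(ℝ, ℂ)) (n : ℕ) {R : ℝ} (hR : 1 ≤ R) :
    ∫⁻ s, ENNReal.ofReal ((1 + |s| / R) ^ n * ‖F s‖ ^ 2) ≤
      ENNReal.ofReal (mom F 0 + mom F n / R) := by
  have hR0 : 0 < R := by linarith
  rw [ENNReal.ofReal_add (mom_nonneg F 0) (div_nonneg (mom_nonneg F n) hR0.le), ← lintegral_sq_mom]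
  refine le_trans ?_ (add_le_add_right (lintegral_momR_sub F n hR) _)
  rw [← lintegral_add_left]
  · apply lintegral_mono
    intro s
    dsimp only
    have h1 : (0 : ℝ) ≤ (1 + |s| / R) ^ n - 1 := by
      have : (1 : ℝ) ≤ (1 + |s| / R) ^ n := one_le_pow₀ (by
        have : 0 ≤ |s| / R := by positivity
        linarith)
      linarith
    rw [← ENNReal.ofReal_add (by positivity) (by positivity)]
    apply ENNReal.ofReal_le_ofReal
    apply le_of_eq; ring
  · have := F.continuous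
    fun_prop

/-- the class of admissible weights -/
structure Adm (R : ℝ) (N : ℕ) (w : ℝ → ℝ) : Prop where
  cont : Continuous w
  nonneg : ∀ x, 0 ≤ w x
  ratio : ∀ x y, w x ≤ (1 + |x - y| / R) ^ N * w y

lemma conv_swap {w : ℝ → ℝ} (hw : Continuous w) {h : ℝ → ℂ} (hh : Continuous h) (ψ : 𝓢(ℝ, ℂ)) :
    ∫⁻ x, ENNReal.ofReal (w x ^ 2) * ∫⁻ t, ENNReal.ofReal (‖h t‖ ^ 2) *
      ENNReal.ofReal (‖ψ (t - x)‖ ^ 2) =
    ∫⁻ t, ENNReal.ofReal (‖h t‖ ^ 2) * ∫⁻ x, ENNReal.ofReal (w x ^ 2) *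
      ENNReal.ofReal (‖ψ (t - x)‖ ^ 2) := by
  have hψ := ψ.continuous
  have e1 : ∀ x, ENNReal.ofReal (w x ^ 2) * ∫⁻ t, ENNReal.ofReal (‖h t‖ ^ 2) *
      ENNReal.ofReal (‖ψ (t - x)‖ ^ 2) = ∫⁻ t, ENNReal.ofReal (w x ^ 2) *
      (ENNReal.ofReal (‖h t‖ ^ 2) * ENNReal.ofReal (‖ψ (t - x)‖ ^ 2)) := fun x => by
    rw [lintegral_const_mul']
    exact ENNReal.ofReal_ne_top
  have e2 : ∀ t, ENNReal.ofReal (‖h t‖ ^ 2) * ∫⁻ x, ENNReal.ofReal (w x ^ 2) *
      ENNReal.ofReal (‖ψ (t - x)‖ ^ 2) = ∫⁻ x, ENNReal.ofReal (‖h t‖ ^ 2) *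
      (ENNReal.ofReal (w x ^ 2) * ENNReal.ofReal (‖ψ (t - x)‖ ^ 2)) := fun x => by
    rw [lintegral_const_mul']
    exact ENNReal.ofReal_ne_top
  simp_rw [e1, e2]
  rw [lintegral_lintegral_swap]
  · congr 1
    ext t
    congr 1
    ext x
    ring
  · apply Measurable.aemeasurable
    apply Measurable.fun_mul
    · exact (ENNReal.measurable_ofReal.comp ((hw.measurable.comp measurable_fst).pow_const 2))
    · apply Measurable.fun_mul
      · exact (ENNReal.measurable_ofReal.comp ((hh.norm.measurable.comp measurable_snd).pow_const 2))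
      · exact ENNReal.measurable_ofReal.comp
          (((hψ.norm.comp (continuous_snd.sub continuous_fst)).measurable).pow_const 2)

lemma conv_upper {R : ℝ} {N : ℕ} {w : ℝ → ℝ} (hR : 1 ≤ R) (hw : Adm R N w) (ψ : 𝓢(ℝ, ℂ)) (t : ℝ) :
    ∫⁻ x, ENNReal.ofReal (w x ^ 2) * ENNReal.ofReal (‖ψ (t - x)‖ ^ 2) ≤
      ENNReal.ofReal (w t ^ 2) * ENNReal.ofReal (mom ψ 0 + mom ψ (2 * N) / R) := by
  calc ∫⁻ x, ENNReal.ofReal (w x ^ 2) * ENNReal.ofReal (‖ψ (t - x)‖ ^ 2)
      ≤ ∫⁻ x, ENNReal.ofReal (w t ^ 2) *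
          ENNReal.ofReal ((1 + |t - x| / R) ^ (2 * N) * ‖ψ (t - x)‖ ^ 2) := by
        apply lintegral_mono
        intro x
        dsimp only
        rw [← ENNReal.ofReal_mul (by positivity), ← ENNReal.ofReal_mul (by positivity)]
        apply ENNReal.ofReal_le_ofReal
        have h1 := hw.ratio x t
        rw [abs_sub_comm] at h1
        have h2 : w x ^ 2 ≤ ((1 + |t - x| / R) ^ N * w t) ^ 2 :=
          pow_le_pow_left₀ (hw.nonneg x) h1 2
        calc w x ^ 2 * ‖ψ (t - x)‖ ^ 2 ≤ ((1 + |t - x| / R) ^ N * w t) ^ 2 * ‖ψ (t - x)‖ ^ 2 := by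
              gcongr
          _ = _ := by ring
    _ = ENNReal.ofReal (w t ^ 2) *
          ∫⁻ x, ENNReal.ofReal ((1 + |t - x| / R) ^ (2 * N) * ‖ψ (t - x)‖ ^ 2) := by
        rw [lintegral_const_mul']
        exact ENNReal.ofReal_ne_top
    _ = ENNReal.ofReal (w t ^ 2) *
          ∫⁻ s, ENNReal.ofReal ((1 + |s| / R) ^ (2 * N) * ‖ψ s‖ ^ 2) := by
        congr 1
        exact lintegral_sub_left_eq_self
          (fun s => ENNReal.ofReal ((1 + |s| / R) ^ (2 * N) * ‖ψ s‖ ^ 2)) t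
    _ ≤ _ := by
        gcongr
        exact lintegral_momR ψ (2 * N) hR

lemma conv_lower {R : ℝ} {N : ℕ} {w : ℝ → ℝ} (hR : 1 ≤ R) (hw : Adm R N w) (ψ : 𝓢(ℝ, ℂ)) (t : ℝ) :
    ENNReal.ofReal (w t ^ 2) * ENNReal.ofReal (mom ψ 0 - mom ψ (2 * N) / R) ≤
    ∫⁻ x, ENNReal.ofReal (w x ^ 2) * ENNReal.ofReal (‖ψ (t - x)‖ ^ 2) := by
  have hψ := ψ.continuous
  have hR0 : 0 < R := by linarith
  have h1 : ENNReal.ofReal (w t ^ 2) * ENNReal.ofReal (mom ψ 0) ≤
      (∫⁻ x, ENNReal.ofReal (w x ^ 2) * ENNReal.ofReal (‖ψ (t - x)‖ ^ 2)) +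
      ENNReal.ofReal (w t ^ 2) * ENNReal.ofReal (mom ψ (2 * N) / R) := by
    calc ENNReal.ofReal (w t ^ 2) * ENNReal.ofReal (mom ψ 0)
        = ENNReal.ofReal (w t ^ 2) * ∫⁻ x, ENNReal.ofReal (‖ψ (t - x)‖ ^ 2) := by
          congr 1
          rw [← lintegral_sq_mom]
          exact (lintegral_sub_left_eq_self (fun s => ENNReal.ofReal (‖ψ s‖ ^ 2)) t).symm
      _ = ∫⁻ x, ENNReal.ofReal (w t ^ 2) * ENNReal.ofReal (‖ψ (t - x)‖ ^ 2) := by
          rw [lintegral_const_mul']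
          exact ENNReal.ofReal_ne_top
      _ ≤ ∫⁻ x, (ENNReal.ofReal (w x ^ 2) * ENNReal.ofReal (‖ψ (t - x)‖ ^ 2) +
            ENNReal.ofReal (w t ^ 2) *
              ENNReal.ofReal (((1 + |t - x| / R) ^ (2 * N) - 1) * ‖ψ (t - x)‖ ^ 2)) := by
          apply lintegral_mono
          intro x
          dsimp only
          have ha1 : (1 : ℝ) ≤ (1 + |t - x| / R) ^ (2 * N) := one_le_pow₀ (by
            have : 0 ≤ |t - x| / R := by positivity
            linarith)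
          rw [← ENNReal.ofReal_mul (by positivity), ← ENNReal.ofReal_mul (by positivity),
            ← ENNReal.ofReal_mul (by positivity), ← ENNReal.ofReal_add (by positivity)
              (mul_nonneg (by positivity) (mul_nonneg (by linarith) (by positivity)))]
          apply ENNReal.ofReal_le_ofReal
          have h2 : w t ^ 2 ≤ ((1 + |t - x| / R) ^ N * w x) ^ 2 :=
            pow_le_pow_left₀ (hw.nonneg t) (hw.ratio t x) 2
          set a := (1 + |t - x| / R) ^ (2 * N) with ha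
          have h3 : w t ^ 2 ≤ a * w x ^ 2 := by
            calc w t ^ 2 ≤ ((1 + |t - x| / R) ^ N * w x) ^ 2 := h2
              _ = a * w x ^ 2 := by rw [ha]; ring
          have h4 : w t ^ 2 * (2 - a) ≤ w x ^ 2 := by
            rcases le_or_gt 2 a with h | h
            · have : w t ^ 2 * (2 - a) ≤ 0 := by
                apply mul_nonpos_of_nonneg_of_nonpos (by positivity) (by linarith)
              have : 0 ≤ w x ^ 2 := by positivity
              linarith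
            · have e5 : w t ^ 2 * (2 - a) ≤ (a * w x ^ 2) * (2 - a) := by
                apply mul_le_mul_of_nonneg_right h3 (by linarith)
              have e6 : (a * w x ^ 2) * (2 - a) ≤ w x ^ 2 := by
                have : a * (2 - a) ≤ 1 := by nlinarith [sq_nonneg (a - 1)]
                nlinarith [sq_nonneg (w x)]
              linarith
          nlinarith [sq_nonneg ‖ψ (t - x)‖, mul_le_mul_of_nonneg_right h4 (sq_nonneg ‖ψ (t - x)‖)]
      _ = (∫⁻ x, ENNReal.ofReal (w x ^ 2) * ENNReal.ofReal (‖ψ (t - x)‖ ^ 2)) +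
            ENNReal.ofReal (w t ^ 2) *
              ∫⁻ s, ENNReal.ofReal (((1 + |s| / R) ^ (2 * N) - 1) * ‖ψ s‖ ^ 2) := by
          rw [lintegral_add_left]
          · congr 1
            rw [lintegral_const_mul' _ _ ENNReal.ofReal_ne_top]
            congr 1
            exact lintegral_sub_left_eq_self (μ := volume)
              (fun s => ENNReal.ofReal (((1 + |s| / R) ^ (2 * N) - 1) * ‖ψ s‖ ^ 2)) t
          · apply Measurable.fun_mul
            · exact (ENNReal.measurable_ofReal.comp (hw.cont.measurable.pow_const 2))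
            · exact ENNReal.measurable_ofReal.comp
                (((hψ.norm.comp (continuous_const.sub continuous_id)).measurable).pow_const 2)
      _ ≤ _ := by
          gcongr
          exact lintegral_momR_sub ψ (2 * N) hR
  rw [ENNReal.ofReal_sub _ (div_nonneg (mom_nonneg _ _) hR0.le), ENNReal.mul_sub]
  · exact tsub_le_iff_right.2 h1
  · intro _ _
    exact ENNReal.ofReal_ne_top

/-- upper bound of the weighted STFT energy -/
lemma UU_le {R : ℝ} {N : ℕ} {w : ℝ → ℝ} (hR : 1 ≤ R) (hw : Adm R N w) (f ψ : 𝓢(ℝ, ℂ)) :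
    UU w f ψ ≤ ENNReal.ofReal (mom ψ 0 + mom ψ (2 * N) / R) * en w f := by
  unfold UU
  have e1 : ∀ x, ∫⁻ ξ, ENNReal.ofReal ((w x * ‖V f ψ x ξ‖) ^ 2) =
      ENNReal.ofReal (w x ^ 2) * ∫⁻ t, ENNReal.ofReal (‖f t‖ ^ 2) *
        ENNReal.ofReal (‖ψ (t - x)‖ ^ 2) := by
    intro x
    rw [← lintegral_V, ← lintegral_const_mul' _ _ ENNReal.ofReal_ne_top]
    congr 1
    ext ξ
    rw [← ENNReal.ofReal_mul (by positivity)]
    congr 1; ring
  simp_rw [e1]
  rw [conv_swap hw.cont f.continuous ψ]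
  calc ∫⁻ t, ENNReal.ofReal (‖f t‖ ^ 2) * ∫⁻ x, ENNReal.ofReal (w x ^ 2) *
      ENNReal.ofReal (‖ψ (t - x)‖ ^ 2)
      ≤ ∫⁻ t, ENNReal.ofReal (‖f t‖ ^ 2) *
          (ENNReal.ofReal (w t ^ 2) * ENNReal.ofReal (mom ψ 0 + mom ψ (2 * N) / R)) := by
        apply lintegral_mono
        intro t
        dsimp only
        gcongr
        exact conv_upper hR hw ψ t
    _ = ∫⁻ t, ENNReal.ofReal (mom ψ 0 + mom ψ (2 * N) / R) *
          ENNReal.ofReal ((w t * ‖f t‖) ^ 2) := by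
        congr 1
        ext t
        rw [mul_pow, ENNReal.ofReal_mul (by positivity)]
        ring
    _ = _ := by
        rw [lintegral_const_mul' _ _ ENNReal.ofReal_ne_top]
        rfl

/-- lower bound of the weighted STFT derivative energy -/
lemma DD_ge {R : ℝ} {N : ℕ} {w : ℝ → ℝ} (hR : 1 ≤ R) (hw : Adm R N w) (f ψ : 𝓢(ℝ, ℂ))
    {ε : ℝ} (hε : 0 < ε) :
    ENNReal.ofReal (mom ψ 0 - mom ψ (2 * N) / R) * en w (deriv f) ≤
      ENNReal.ofReal (1 + ε) * DD w f ψ +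
      ENNReal.ofReal (1 + 1 / ε) *
        (ENNReal.ofReal (mom (derivCLM ℂ ℂ ψ) 0 + mom (derivCLM ℂ ℂ ψ) (2 * N) / R) * en w f) := by
  have hψ := ψ.continuous
  have hf := f.continuous
  have hf' : Continuous (deriv f) := (derivCLM ℂ ℂ f).continuous
  have hψ' : Continuous (deriv ψ) := (derivCLM ℂ ℂ ψ).continuous
  -- left side
  have h1 : ENNReal.ofReal (mom ψ 0 - mom ψ (2 * N) / R) * en w (deriv f) ≤
      ∫⁻ x, ENNReal.ofReal (w x ^ 2) * ∫⁻ t, ENNReal.ofReal (‖deriv f t‖ ^ 2) *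
        ENNReal.ofReal (‖ψ (t - x)‖ ^ 2) := by
    rw [conv_swap hw.cont hf' ψ]
    unfold en
    rw [← lintegral_const_mul' _ _ ENNReal.ofReal_ne_top]
    apply lintegral_mono
    intro t
    dsimp only
    calc ENNReal.ofReal (mom ψ 0 - mom ψ (2 * N) / R) * ENNReal.ofReal ((w t * ‖deriv f t‖) ^ 2)
        = ENNReal.ofReal (‖deriv f t‖ ^ 2) * (ENNReal.ofReal (w t ^ 2) *
            ENNReal.ofReal (mom ψ 0 - mom ψ (2 * N) / R)) := by
          rw [mul_pow, ENNReal.ofReal_mul (by positivity)]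
          ring
      _ ≤ _ := by
          gcongr
          exact conv_lower hR hw ψ t
  refine h1.trans ?_
  -- pointwise in x
  have h2 : ∀ x, ∫⁻ t, ENNReal.ofReal (‖deriv f t‖ ^ 2) * ENNReal.ofReal (‖ψ (t - x)‖ ^ 2) ≤
      ENNReal.ofReal (1 + ε) * (∫⁻ ξ, ENNReal.ofReal ((2 * π * |ξ| * ‖V f ψ x ξ‖) ^ 2)) +
      ENNReal.ofReal (1 + 1 / ε) * ∫⁻ t, ENNReal.ofReal (‖f t‖ ^ 2) *
        ENNReal.ofReal (‖(derivCLM ℂ ℂ ψ) (t - x)‖ ^ 2) := by
    intro x
    rw [lintegral_V_xi, ← lintegral_const_mul' _ _ ENNReal.ofReal_ne_top,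
      ← lintegral_const_mul' _ _ ENNReal.ofReal_ne_top, ← lintegral_add_left]
    · apply lintegral_mono
      intro t
      dsimp only
      rw [deriv_win, ← ENNReal.ofReal_mul (by positivity), ← ENNReal.ofReal_mul (by positivity),
        ← ENNReal.ofReal_mul (by positivity), ← ENNReal.ofReal_mul (by positivity),
        ← ENNReal.ofReal_add (by positivity) (by positivity)]
      apply ENNReal.ofReal_le_ofReal
      rw [← mul_pow, ← mul_pow, ← norm_mul, ← norm_mul, derivCLM_apply]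
      set a := deriv f t * ψ (t - x)
      set b := f t * deriv ψ (t - x)
      have hab : ‖a‖ ≤ ‖a + b‖ + ‖b‖ := by
        have : a = (a + b) - b := by ring
        calc ‖a‖ = ‖(a + b) - b‖ := by rw [← this]
          _ ≤ _ := norm_sub_le _ _
      have h3 : ‖a‖ ^ 2 ≤ (‖a + b‖ + ‖b‖) ^ 2 := pow_le_pow_left₀ (norm_nonneg _) hab 2
      have h4 : 2 * (‖a + b‖ * ‖b‖) ≤ ε * ‖a + b‖ ^ 2 + 1 / ε * ‖b‖ ^ 2 := by
        have h5 : 0 ≤ (ε * ‖a + b‖ - ‖b‖) ^ 2 / ε := by positivity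
        have h6 : (ε * ‖a + b‖ - ‖b‖) ^ 2 / ε =
            ε * ‖a + b‖ ^ 2 + 1 / ε * ‖b‖ ^ 2 - 2 * (‖a + b‖ * ‖b‖) := by
          field_simp; ring
        linarith
      nlinarith
    · have := (win f ψ x).continuous
      have h' : Continuous (deriv (win f ψ x)) := (derivCLM ℂ ℂ (win f ψ x)).continuous
      apply Measurable.const_mul
      exact ENNReal.measurable_ofReal.comp ((h'.norm.measurable).pow_const 2)
  calc ∫⁻ x, ENNReal.ofReal (w x ^ 2) * ∫⁻ t, ENNReal.ofReal (‖deriv f t‖ ^ 2) *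
        ENNReal.ofReal (‖ψ (t - x)‖ ^ 2)
      ≤ ∫⁻ x, (ENNReal.ofReal (1 + ε) *
          (∫⁻ ξ, ENNReal.ofReal ((w x * (2 * π * |ξ| * ‖V f ψ x ξ‖)) ^ 2)) +
        ENNReal.ofReal (1 + 1 / ε) * (ENNReal.ofReal (w x ^ 2) *
          ∫⁻ t, ENNReal.ofReal (‖f t‖ ^ 2) * ENNReal.ofReal (‖(derivCLM ℂ ℂ ψ) (t - x)‖ ^ 2))) := by
        apply lintegral_mono
        intro x
        dsimp only
        refine (mul_le_mul_right (h2 x) _).trans (le_of_eq ?_)
        have e1 : ∫⁻ ξ, ENNReal.ofReal ((w x * (2 * π * |ξ| * ‖V f ψ x ξ‖)) ^ 2) =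
            ENNReal.ofReal (w x ^ 2) * ∫⁻ ξ, ENNReal.ofReal ((2 * π * |ξ| * ‖V f ψ x ξ‖) ^ 2) := by
          rw [← lintegral_const_mul' _ _ ENNReal.ofReal_ne_top]
          congr 1
          ext ξ
          rw [mul_pow (w x), ENNReal.ofReal_mul (by positivity)]
        rw [e1]
        ring
    _ = ENNReal.ofReal (1 + ε) * DD w f ψ +
      ENNReal.ofReal (1 + 1 / ε) * ∫⁻ x, ENNReal.ofReal (w x ^ 2) *
          ∫⁻ t, ENNReal.ofReal (‖f t‖ ^ 2) * ENNReal.ofReal (‖(derivCLM ℂ ℂ ψ) (t - x)‖ ^ 2) := by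
        rw [lintegral_add_left, lintegral_const_mul' _ _ ENNReal.ofReal_ne_top,
          lintegral_const_mul' _ _ ENNReal.ofReal_ne_top]
        · rfl
        · apply Measurable.const_mul
          apply Measurable.lintegral_prod_right'
            (f := fun z : ℝ × ℝ => ENNReal.ofReal ((w z.1 * (2 * π * |z.2| * ‖V f ψ z.1 z.2‖)) ^ 2))
          apply ENNReal.measurable_ofReal.comp
          apply Measurable.pow_const
          apply Measurable.fun_mul
          · exact hw.cont.measurable.comp measurable_fst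
          · apply Measurable.fun_mul
            · exact (by fun_prop : Continuous (fun z : ℝ × ℝ => 2 * π * |z.2|)).measurable
            · exact (stronglyMeasurable_V f ψ).measurable.norm
    _ ≤ _ := by
        gcongr
        rw [conv_swap hw.cont hf]
        calc ∫⁻ t, ENNReal.ofReal (‖f t‖ ^ 2) * ∫⁻ x, ENNReal.ofReal (w x ^ 2) *
            ENNReal.ofReal (‖(derivCLM ℂ ℂ ψ) (t - x)‖ ^ 2)
            ≤ ∫⁻ t, ENNReal.ofReal (‖f t‖ ^ 2) *
              (ENNReal.ofReal (w t ^ 2) * ENNReal.ofReal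
                (mom (derivCLM ℂ ℂ ψ) 0 + mom (derivCLM ℂ ℂ ψ) (2 * N) / R)) := by
              apply lintegral_mono
              intro t
              dsimp only
              gcongr
              exact conv_upper hR hw _ t
          _ = ∫⁻ t, ENNReal.ofReal (mom (derivCLM ℂ ℂ ψ) 0 + mom (derivCLM ℂ ℂ ψ) (2 * N) / R) *
                ENNReal.ofReal ((w t * ‖f t‖) ^ 2) := by
              congr 1
              ext t
              rw [mul_pow, ENNReal.ofReal_mul (by positivity)]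
              ring
          _ = _ := by
              rw [lintegral_const_mul' _ _ ENNReal.ofReal_ne_top]
              rfl

end Pool.Agent.H32SF
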