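import Pool.Agent.Lib.MP_f612df_an_helper32.Phase

/-!
# MP_f612df_an: gap inequality
-/

namespace Pool.Agent.H32SF

open Real MeasureTheory SchwartzMap Filter Topology Set
open scoped ENNReal

/-- Wirtinger type inequality with boundary values -/
lemma wirtinger {a b κ : ℝ} (hab : a ≤ b) (hκ : 0 < κ) (hκl : κ * (b - a) < π) (f : 𝓢(ℝ, ℂ)) :
    κ ^ 2 * ∫ t in a..b, ‖f t‖ ^ 2 ≤ (∫ t in a..b, ‖deriv f t‖ ^ 2) +
      κ * Real.tan (κ * (b - a) / 2) * (‖f a‖ ^ 2 + ‖f b‖ ^ 2) := by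
  set c := (a + b) / 2 with hc
  set τ : ℝ → ℝ := fun t => κ * Real.tan (κ * (t - c)) with hτ
  have hf := f.continuous
  have hf' : Continuous (deriv f) := (derivCLM ℂ ℂ f).continuous
  have hcos : ∀ t ∈ Icc a b, Real.cos (κ * (t - c)) ≠ 0 := by
    intro t ht
    have h1 : -(π / 2) < κ * (t - c) := by
      have : -(κ * (b - a)) / 2 ≤ κ * (t - c) := by rw [hc]; nlinarith [ht.1]
      linarith
    have h2 : κ * (t - c) < π / 2 := by
      have : κ * (t - c) ≤ κ * (b - a) / 2 := by rw [hc]; nlinarith [ht.2]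
      linarith
    exact (Real.cos_pos_of_mem_Ioo ⟨h1, h2⟩).ne'
  have hτd : ∀ t ∈ Icc a b, HasDerivAt τ (κ ^ 2 + τ t ^ 2) t := by
    intro t ht
    have h1 := (Real.hasDerivAt_tan (hcos t ht))
    have h2 : HasDerivAt (fun t => κ * (t - c)) κ t := by
      simpa using ((hasDerivAt_id t).sub_const c).const_mul κ
    have h3 := (h1.comp t h2).const_mul κ
    convert! h3 using 1
    have hc2 : Real.cos (κ * (t - c)) ^ 2 ≠ 0 := pow_ne_zero _ (hcos t ht)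
    simp only [hτ]
    rw [Real.tan_eq_sin_div_cos]
    have hsc := Real.sin_sq_add_cos_sq (κ * (t - c))
    have e : (1 + (Real.sin (κ * (t - c)) / Real.cos (κ * (t - c))) ^ 2) *
        Real.cos (κ * (t - c)) ^ 2 = 1 := by
      rw [div_pow, add_mul, div_mul_cancel₀ _ hc2]; linarith
    rw [← (eq_div_iff hc2).2 e]
    ring
  set G : ℝ → ℝ := fun t => τ t * ‖f t‖ ^ 2 with hG
  have hGd : ∀ t ∈ Icc a b, HasDerivAt G
      ((κ ^ 2 + τ t ^ 2) * ‖f t‖ ^ 2 + τ t * (2 * inner ℝ (f t) (deriv f t))) t := by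
    intro t ht
    exact (hτd t ht).mul ((f.hasDerivAt t).norm_sq)
  have hτc : ContinuousOn τ (Icc a b) := fun t ht => (hτd t ht).continuousAt.continuousWithinAt
  have hGint : IntervalIntegrable (fun t => (κ ^ 2 + τ t ^ 2) * ‖f t‖ ^ 2 +
      τ t * (2 * inner ℝ (f t) (deriv f t))) volume a b := by
    apply ContinuousOn.intervalIntegrable
    rw [uIcc_of_le hab]
    apply ContinuousOn.add
    · exact (continuousOn_const.add (hτc.pow 2)).mul (by fun_prop)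
    · exact hτc.mul (by fun_prop)
  have hFTC := intervalIntegral.integral_eq_sub_of_hasDerivAt
    (fun t ht => hGd t (by rwa [uIcc_of_le hab] at ht)) hGint
  have i1 : IntervalIntegrable (fun t => κ ^ 2 * ‖f t‖ ^ 2) volume a b :=
    Continuous.intervalIntegrable (by fun_prop) _ _
  have i2 : IntervalIntegrable (fun t => ‖deriv f t‖ ^ 2) volume a b :=
    Continuous.intervalIntegrable (by fun_prop) _ _
  have hmain : ∫ t in a..b, κ ^ 2 * ‖f t‖ ^ 2 ≤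
      ∫ t in a..b, (‖deriv f t‖ ^ 2 + ((κ ^ 2 + τ t ^ 2) * ‖f t‖ ^ 2 +
      τ t * (2 * inner ℝ (f t) (deriv f t)))) := by
    apply intervalIntegral.integral_mono_on hab i1 (i2.add hGint)
    intro t ht
    have h1 : 0 ≤ ‖deriv f t + (τ t : ℝ) • f t‖ ^ 2 := by positivity
    rw [norm_add_sq_real, real_inner_smul_right, norm_smul, Real.norm_eq_abs, mul_pow, sq_abs,
      real_inner_comm] at h1
    linarith
  rw [intervalIntegral.integral_add i2 hGint, hFTC, intervalIntegral.integral_const_mul] at hmain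
  have hGb : G b = κ * Real.tan (κ * (b - a) / 2) * ‖f b‖ ^ 2 := by
    simp only [hG, hτ]
    congr 3
    rw [hc]; ring
  have hGa : G a = -(κ * Real.tan (κ * (b - a) / 2) * ‖f a‖ ^ 2) := by
    simp only [hG, hτ]
    have : κ * (a - c) = -(κ * (b - a) / 2) := by rw [hc]; ring
    rw [this, Real.tan_neg]
    ring
  rw [hGb, hGa] at hmain
  linarith

/-- weighted gap estimate -/
lemma gap_weighted {a b ρ Bm k : ℝ} (hab : a ≤ b) {u B : ℝ → ℝ} (hu : Continuous u)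
    (hB : Continuous B)
    (hu0 : ∀ t, 0 < u t) (hρ : 1 ≤ ρ) (hBm : 1 ≤ Bm) (hk0 : 0 < k) (hk1 : k < 1)
    (h1 : ∀ t ∈ Icc a b, u t ≤ ρ * u a) (h2 : ∀ t ∈ Icc a b, u a ≤ ρ * u t)
    (hB0 : ∀ t, 0 < B t) (hBt : ∀ t ∈ Icc a b, B t ≤ Bm)
    (hgap : 2 * ρ ^ 2 * Bm * (b - a) ≤ k) (f : 𝓢(ℝ, ℂ)) :
    ∫ t in a..b, (u t * ‖f t‖) ^ 2 ≤ k / (4 * π ^ 2) * (∫ t in a..b, (u t / B t * ‖deriv f t‖) ^ 2) +
      ρ ^ 4 * Real.tan (π / 2 * √k) * ((u a * ‖f a‖) ^ 2 + (u b * ‖f b‖) ^ 2) := by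
  have hf := f.continuous
  have hf' : Continuous (deriv f) := (derivCLM ℂ ℂ f).continuous
  have hsk : 0 < √k := Real.sqrt_pos.2 hk0
  have hsk1 : √k < 1 := by
    rw [← Real.sqrt_one]; exact Real.sqrt_lt_sqrt hk0.le hk1
  have hskk : √k * √k = k := Real.mul_self_sqrt hk0.le
  have hρ0 : 0 < ρ := by linarith
  have hBm0 : 0 < Bm := by linarith
  set κ := 2 * π * ρ ^ 2 * Bm / √k with hκ
  have hπ := Real.pi_pos
  have hκ0 : 0 < κ := by positivity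
  have hκ1 : 1 ≤ κ := by
    rw [hκ, le_div_iff₀ hsk]
    have h3 : 1 ≤ ρ ^ 2 := one_le_pow₀ hρ
    have h4 : (3 : ℝ) < π := Real.pi_gt_three
    have h5 : 1 ≤ ρ ^ 2 * Bm := by nlinarith
    nlinarith
  have hκl : κ * (b - a) ≤ π * √k := by
    rw [hκ, div_mul_eq_mul_div, div_le_iff₀ hsk]
    calc 2 * π * ρ ^ 2 * Bm * (b - a) = π * (2 * ρ ^ 2 * Bm * (b - a)) := by ring
      _ ≤ π * k := by gcongr
      _ = π * √k * √k := by rw [mul_assoc, hskk]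
  have hκlπ : κ * (b - a) < π := by
    refine lt_of_le_of_lt hκl ?_
    nlinarith
  have hW := wirtinger hab hκ0 hκlπ f
  have hba : 0 ≤ b - a := by linarith
  have htan : Real.tan (κ * (b - a) / 2) ≤ Real.tan (π / 2 * √k) := by
    have hle : κ * (b - a) / 2 ≤ π / 2 * √k := by linarith
    rcases hle.eq_or_lt with h | h
    · rw [h]
    · apply le_of_lt
      apply Real.tan_lt_tan_of_lt_of_lt_pi_div_two _ _ h
      · have : 0 ≤ κ * (b - a) / 2 := by positivity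
        linarith
      · nlinarith
  have htan0 : 0 ≤ Real.tan (κ * (b - a) / 2) := by
    apply Real.tan_nonneg_of_nonneg_of_le_pi_div_two
    · positivity
    · linarith
  set tn := Real.tan (κ * (b - a) / 2) with htn
  set tk := Real.tan (π / 2 * √k) with htk
  have hua := hu0 a
  -- first bound
  have s1 : ∫ t in a..b, (u t * ‖f t‖) ^ 2 ≤ (ρ * u a) ^ 2 * ∫ t in a..b, ‖f t‖ ^ 2 := by
    rw [← intervalIntegral.integral_const_mul]
    apply intervalIntegral.integral_mono_on hab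
    · exact Continuous.intervalIntegrable (by fun_prop) _ _
    · exact Continuous.intervalIntegrable (by fun_prop) _ _
    · intro t ht
      rw [mul_pow]
      have := pow_le_pow_left₀ (hu0 t).le (h1 t ht) 2
      gcongr
  have s2 : (u a) ^ 2 * ∫ t in a..b, ‖deriv f t‖ ^ 2 ≤
      (ρ * Bm) ^ 2 * ∫ t in a..b, (u t / B t * ‖deriv f t‖) ^ 2 := by
    rw [← intervalIntegral.integral_const_mul, ← intervalIntegral.integral_const_mul]
    apply intervalIntegral.integral_mono_on hab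
    · exact Continuous.intervalIntegrable (by fun_prop) _ _
    · apply Continuous.intervalIntegrable
      apply Continuous.const_mul
      apply Continuous.pow
      exact (hu.div hB (fun t => (hB0 t).ne')).mul hf'.norm
    · intro t ht
      have h3 : u a ≤ ρ * Bm * (u t / B t) := by
        have h4 := h2 t ht
        have h5 := hBt t ht
        have h6 := hB0 t
        have h7 : u t ≤ Bm * (u t / B t) := by
          rw [mul_div_assoc', le_div_iff₀ h6]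
          nlinarith [hu0 t]
        calc u a ≤ ρ * u t := h4
          _ ≤ ρ * (Bm * (u t / B t)) := by gcongr
          _ = _ := by ring
      have h8 := pow_le_pow_left₀ hua.le h3 2
      calc (u a) ^ 2 * ‖deriv f t‖ ^ 2 ≤ (ρ * Bm * (u t / B t)) ^ 2 * ‖deriv f t‖ ^ 2 := by gcongr
        _ = _ := by ring
  set I0 := ∫ t in a..b, ‖f t‖ ^ 2
  set I1 := ∫ t in a..b, ‖deriv f t‖ ^ 2
  set J := ∫ t in a..b, (u t / B t * ‖deriv f t‖) ^ 2
  have hκ2 : κ ^ 2 = 4 * π ^ 2 * ρ ^ 4 * Bm ^ 2 / k := by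
    rw [hκ, div_pow, Real.sq_sqrt hk0.le]; ring
  have s3 : I0 ≤ (I1 + κ * tn * (‖f a‖ ^ 2 + ‖f b‖ ^ 2)) / κ ^ 2 := by
    rw [le_div_iff₀ (by positivity)]
    linarith
  have s4 : (ρ * u a) ^ 2 * I0 ≤ (ρ * u a) ^ 2 * ((I1 + κ * tn * (‖f a‖ ^ 2 + ‖f b‖ ^ 2)) / κ ^ 2) := by
    gcongr
  have s5 : (ρ * u a) ^ 2 * ((I1 + κ * tn * (‖f a‖ ^ 2 + ‖f b‖ ^ 2)) / κ ^ 2) =
      ρ ^ 2 / κ ^ 2 * (u a ^ 2 * I1) + ρ ^ 2 * (tn / κ) * (u a ^ 2 * ‖f a‖ ^ 2 + u a ^ 2 * ‖f b‖ ^ 2) := by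
    field_simp
  have s6 : ρ ^ 2 / κ ^ 2 * (u a ^ 2 * I1) ≤ k / (4 * π ^ 2) * J := by
    calc ρ ^ 2 / κ ^ 2 * (u a ^ 2 * I1) ≤ ρ ^ 2 / κ ^ 2 * ((ρ * Bm) ^ 2 * J) := by gcongr
      _ = k / (4 * π ^ 2) * J := by
        rw [hκ2]; field_simp
  have hub : u a ^ 2 ≤ ρ ^ 2 * u b ^ 2 := by
    have := pow_le_pow_left₀ hua.le (h2 b ⟨hab, le_refl _⟩) 2
    rwa [mul_pow] at this
  have s7 : u a ^ 2 * ‖f a‖ ^ 2 + u a ^ 2 * ‖f b‖ ^ 2 ≤
      ρ ^ 2 * ((u a * ‖f a‖) ^ 2 + (u b * ‖f b‖) ^ 2) := by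
    have h3 : 1 ≤ ρ ^ 2 := one_le_pow₀ hρ
    have h4 : u a ^ 2 * ‖f b‖ ^ 2 ≤ ρ ^ 2 * u b ^ 2 * ‖f b‖ ^ 2 := by gcongr
    have h5 : u a ^ 2 * ‖f a‖ ^ 2 ≤ ρ ^ 2 * (u a ^ 2 * ‖f a‖ ^ 2) :=
      le_mul_of_one_le_left (by positivity) h3
    nlinarith
  have s8 : tn / κ ≤ tk := by
    calc tn / κ ≤ tn := div_le_self htan0 hκ1
      _ ≤ tk := htan
  have s8' : 0 ≤ tn / κ := by positivity
  have htk0 : 0 ≤ tk := s8'.trans s8
  have s9 : ρ ^ 2 * (tn / κ) * (u a ^ 2 * ‖f a‖ ^ 2 + u a ^ 2 * ‖f b‖ ^ 2) ≤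
      ρ ^ 4 * tk * ((u a * ‖f a‖) ^ 2 + (u b * ‖f b‖) ^ 2) := by
    calc ρ ^ 2 * (tn / κ) * (u a ^ 2 * ‖f a‖ ^ 2 + u a ^ 2 * ‖f b‖ ^ 2)
        ≤ ρ ^ 2 * tk * (ρ ^ 2 * ((u a * ‖f a‖) ^ 2 + (u b * ‖f b‖) ^ 2)) := by gcongr
      _ = _ := by ring
  linarith

end Pool.Agent.H32SF
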