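import Pool.Agent.Lib.MP_f612df_an_helper32.Gap

/-!
# MP_f612df_an: summing the gap inequality
-/

namespace Pool.Agent.H32SF

open Real MeasureTheory SchwartzMap Filter Topology Set
open scoped ENNReal

/-- `(x_n)` satisfies one half of the supercritical condition -/
structure SuperC (p : ℝ) (x : ℤ → ℝ) : Prop where
  mono : Monotone x
  lim : Tendsto (fun n => |x n|) cofinite atTop
  gap : ∃ θ < (1 / 2 : ℝ), ∀ᶠ n in cofinite, |x n| ^ (p - 1) * |x (n + 1) - x n| ≤ θ

lemma SuperC.atTop {p : ℝ} {x : ℤ → ℝ} (h : SuperC p x) (t : ℝ) : ∃ n, t ≤ x n := by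
  have h1 := (h.lim.eventually (eventually_gt_atTop (max |t| |x 0|)))
  have h2 : ∀ᶠ n : ℤ in cofinite, n ∉ Iic 0 → max |t| |x 0| < |x n| := by
    filter_upwards [h1] with n hn _ using hn
  -- infinitely many positive n
  have h3 : (Ioi (0 : ℤ)).Infinite := Set.Ioi_infinite 0
  obtain ⟨n, hn, hn0⟩ : ∃ n : ℤ, max |t| |x 0| < |x n| ∧ 0 < n := by
    by_contra hcon
    push Not at hcon
    apply h3
    apply (Filter.eventually_cofinite.1 h1).subset
    intro n hn h4
    exact absurd (hcon n h4) (by simpa using hn)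
  refine ⟨n, ?_⟩
  have hmono : x 0 ≤ x n := h.mono hn0.le
  have h5 := (le_max_left |t| |x 0|).trans hn.le
  have h6 := (le_max_right |t| |x 0|).trans_lt hn
  have h7 : 0 ≤ x n := by
    by_contra hneg
    push Not at hneg
    have : x 0 < 0 := lt_of_le_of_lt hmono hneg
    rw [abs_of_neg hneg, abs_of_neg this] at h6
    linarith
  rw [abs_of_nonneg h7] at h5
  exact (le_abs_self t).trans h5

lemma SuperC.atBot {p : ℝ} {x : ℤ → ℝ} (h : SuperC p x) (t : ℝ) : ∃ n, x n < t := by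
  have h1 := (h.lim.eventually (eventually_gt_atTop (max |t| |x 0|)))
  have h3 : (Iio (0 : ℤ)).Infinite := Set.Iio_infinite 0
  obtain ⟨n, hn, hn0⟩ : ∃ n : ℤ, max |t| |x 0| < |x n| ∧ n < 0 := by
    by_contra hcon
    push Not at hcon
    apply h3
    apply (Filter.eventually_cofinite.1 h1).subset
    intro n hn h4
    exact absurd (hcon n h4) (by simpa using hn)
  refine ⟨n, ?_⟩
  have hmono : x n ≤ x 0 := h.mono hn0.le
  have h5 := (le_max_left |t| |x 0|).trans_lt hn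
  have h6 := (le_max_right |t| |x 0|).trans_lt hn
  have h7 : x n ≤ 0 := by
    by_contra hneg
    push Not at hneg
    have : 0 < x 0 := lt_of_lt_of_le hneg hmono
    rw [abs_of_pos hneg, abs_of_pos this] at h6
    linarith
  rw [abs_of_nonpos h7] at h5
  linarith [neg_abs_le t]

lemma SuperC.cover {p : ℝ} {x : ℤ → ℝ} (h : SuperC p x) (t : ℝ) :
    ∃ n, t ∈ Ioc (x n) (x (n + 1)) := by
  obtain ⟨n₀, hn₀⟩ := h.atTop t
  obtain ⟨n₁, hn₁⟩ := h.atBot t
  obtain ⟨n, hn, hmax⟩ := Int.exists_greatest_of_bdd (P := fun n => x n < t)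
    ⟨n₀, fun z hz => by
      by_contra hlt
      push Not at hlt
      exact absurd (h.mono hlt.le) (by linarith)⟩ ⟨n₁, hn₁⟩
  refine ⟨n, hn, ?_⟩
  by_contra hlt
  push Not at hlt
  have := hmax (n + 1) hlt
  omega

lemma SuperC.disj {p : ℝ} {x : ℤ → ℝ} (h : SuperC p x) :
    Pairwise (Function.onFun Disjoint (fun n : ℤ => Ioc (x n) (x (n + 1)))) := by
  intro m n hmn
  rw [Function.onFun, Set.disjoint_left]
  intro t ht ht'
  rcases lt_or_gt_of_ne hmn with h1 | h1
  · have : x (m + 1) ≤ x n := h.mono (by omega)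
    linarith [ht.2, ht'.1]
  · have : x (n + 1) ≤ x m := h.mono (by omega)
    linarith [ht'.2, ht.1]

/-- the gap lengths tend to `0` -/
lemma SuperC.gap_tendsto {p : ℝ} (hp : 1 < p) {x : ℤ → ℝ} (h : SuperC p x) :
    Tendsto (fun n => |x (n + 1) - x n|) cofinite (𝓝 0) := by
  obtain ⟨θ, hθ, hgap⟩ := h.gap
  have h1 : Tendsto (fun n => θ / |x n| ^ (p - 1)) cofinite (𝓝 0) :=
    tendsto_const_nhds.div_atTop ((tendsto_rpow_atTop (by linarith)).comp h.lim)
  apply squeeze_zero' _ _ h1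
  · exact Eventually.of_forall fun n => abs_nonneg _
  · filter_upwards [hgap, h.lim.eventually (eventually_gt_atTop 0)] with n hn hn0
    have : 0 < |x n| ^ (p - 1) := rpow_pos_of_pos hn0 _
    rw [le_div_iff₀ this]
    linarith

/-- the key asymptotic bound of the gaps -/
lemma SuperC.eventually_gap {p : ℝ} (hp : 1 < p) {x : ℤ → ℝ} (h : SuperC p x) :
    ∃ k : ℝ, 0 < k ∧ k < 1 ∧ ∀ R : ℝ, 1 ≤ R → ∀ N : ℕ, ∀ᶠ n in cofinite,
      2 * ((1 + |x (n + 1) - x n| / R) ^ N) ^ 2 *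
        (max (base R (x n)) (base R (x (n + 1)))) ^ (p - 1) * |x (n + 1) - x n| ≤ k ∧
      (1 + |x (n + 1) - x n| / R) ^ N ≤ 2 := by
  obtain ⟨θ, hθ, hgap⟩ := h.gap
  set θ' := max (2 * θ) 0 with hθ'
  have hθ'1 : θ' < 1 := by rw [hθ']; apply max_lt <;> linarith
  have hθ'0 : 0 ≤ θ' := le_max_right _ _
  refine ⟨(1 + θ') / 2, by linarith, by linarith, ?_⟩
  intro R hR N
  have hR0 : 0 < R := by linarith
  have hl := h.gap_tendsto hp
  have hρ : Tendsto (fun n => (1 + |x (n + 1) - x n| / R) ^ N) cofinite (𝓝 1) := by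
    have := ((hl.div_const R).const_add 1).pow N
    simpa using this
  have hc : Tendsto (fun n => (1 + (R + |x (n + 1) - x n|) / |x n|) ^ (p - 1)) cofinite (𝓝 1) := by
    have h1 : Tendsto (fun n => (R + |x (n + 1) - x n|) / |x n|) cofinite (𝓝 0) :=
      (hl.const_add R).div_atTop h.lim
    have h2 : Tendsto (fun n => 1 + (R + |x (n + 1) - x n|) / |x n|) cofinite (𝓝 1) := by
      simpa using h1.const_add 1
    have := h2.rpow_const (p := p - 1) (Or.inl one_ne_zero)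
    simpa using this
  have hprod : Tendsto (fun n => ((1 + |x (n + 1) - x n| / R) ^ N) ^ 2 *
      (1 + (R + |x (n + 1) - x n|) / |x n|) ^ (p - 1) * θ') cofinite (𝓝 (1 ^ 2 * 1 * θ')) :=
    ((hρ.pow 2).mul hc).mul_const θ'
  have hlt : (1 : ℝ) ^ 2 * 1 * θ' < (1 + θ') / 2 := by linarith
  filter_upwards [hprod.eventually_lt_const hlt, hρ.eventually_le_const (by norm_num : (1 : ℝ) < 2),
    hgap, h.lim.eventually (eventually_gt_atTop 0)] with n hn1 hn2 hn3 hn4
  refine ⟨?_, hn2⟩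
  refine le_trans ?_ hn1.le
  have hl0 : 0 ≤ |x (n + 1) - x n| := abs_nonneg _
  have hb1 : max (base R (x n)) (base R (x (n + 1))) ≤
      |x n| * (1 + (R + |x (n + 1) - x n|) / |x n|) := by
    have e : |x n| * (1 + (R + |x (n + 1) - x n|) / |x n|) = |x n| + (R + |x (n + 1) - x n|) := by
      field_simp
    rw [e]
    have hb : ∀ y, base R y ≤ |y| + R := by
      intro y
      unfold base
      rw [Real.sqrt_le_iff]
      constructor
      · positivity
      · nlinarith [abs_nonneg y, sq_abs y]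
    apply max_le
    · linarith [hb (x n)]
    · have h5 : |x (n + 1)| ≤ |x n| + |x (n + 1) - x n| := by
        have : x (n + 1) = x n + (x (n + 1) - x n) := by ring
        calc |x (n + 1)| = |x n + (x (n + 1) - x n)| := by rw [← this]
          _ ≤ _ := abs_add_le _ _
      linarith [hb (x (n + 1))]
  have hb2 : (max (base R (x n)) (base R (x (n + 1)))) ^ (p - 1) ≤
      |x n| ^ (p - 1) * (1 + (R + |x (n + 1) - x n|) / |x n|) ^ (p - 1) := by
    rw [← mul_rpow (by positivity) (by positivity)]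
    apply rpow_le_rpow _ hb1 (by linarith)
    exact le_max_of_le_left (base_pos hR0 _).le
  have h6 : 2 * (|x n| ^ (p - 1) * |x (n + 1) - x n|) ≤ θ' := by
    have : 2 * (|x n| ^ (p - 1) * |x (n + 1) - x n|) ≤ 2 * θ := by linarith
    exact this.trans (le_max_left _ _)
  calc 2 * ((1 + |x (n + 1) - x n| / R) ^ N) ^ 2 *
        (max (base R (x n)) (base R (x (n + 1)))) ^ (p - 1) * |x (n + 1) - x n|
      ≤ 2 * ((1 + |x (n + 1) - x n| / R) ^ N) ^ 2 *
        (|x n| ^ (p - 1) * (1 + (R + |x (n + 1) - x n|) / |x n|) ^ (p - 1)) *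
          |x (n + 1) - x n| := by gcongr
    _ = ((1 + |x (n + 1) - x n| / R) ^ N) ^ 2 *
        (1 + (R + |x (n + 1) - x n|) / |x n|) ^ (p - 1) *
          (2 * (|x n| ^ (p - 1) * |x (n + 1) - x n|)) := by ring
    _ ≤ _ := by gcongr

lemma rho_le_pow {M : ℕ} {T t : ℝ} (hT : 0 < T) (ht : 0 < t) : rho M T t ≤ t ^ (M + 1) := by
  unfold rho
  rw [pow_succ']
  gcongr
  apply div_le_self ht.le
  have : 0 < t / T := by positivity
  linarith

lemma wt_le_central {p R : ℝ} {M : ℕ} {T : ℝ} (hp : 0 ≤ p) (hR : 0 < R) (hT : 0 < T)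
    {r t : ℝ} (ht : |t| ≤ r) : wt p R M T t ≤ (base R r ^ p) ^ (M + 1) := by
  have h1 : |t| ≤ |r| := ht.trans (le_abs_self r)
  refine (wt_mono hp hR hT h1).trans ?_
  unfold wt
  exact rho_le_pow hT (rpow_pos_of_pos (base_pos hR r) _)

/-- one gap in `lintegral` form -/
lemma gap_lintegral {p R : ℝ} {M N : ℕ} {T : ℝ} (hp : 1 < p) (hR : 1 ≤ R) (hT : 0 < T)
    (hN : p * (M + 1) ≤ N) {a b k : ℝ} (hab : a ≤ b) (hk0 : 0 < k) (hk1 : k < 1)
    (h1 : 2 * ((1 + |b - a| / R) ^ N) ^ 2 * (max (base R a) (base R b)) ^ (p - 1) * |b - a| ≤ k)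
    (h2 : (1 + |b - a| / R) ^ N ≤ 2) (f : 𝓢(ℝ, ℂ)) :
    ∫⁻ t in Ioc a b, ENNReal.ofReal ((wt p R M T t * ‖f t‖) ^ 2) ≤
      ENNReal.ofReal (k / (4 * π ^ 2)) *
        (∫⁻ t in Ioc a b, ENNReal.ofReal ((dwt p R M T t * ‖deriv f t‖) ^ 2)) +
      ENNReal.ofReal (16 * Real.tan (π / 2 * √k)) *
        (ENNReal.ofReal ((wt p R M T a * ‖f a‖) ^ 2) +
          ENNReal.ofReal ((wt p R M T b * ‖f b‖) ^ 2)) := by
  have hR0 : 0 < R := by linarith
  have hp0 : 0 ≤ p := by linarith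
  have hf := f.continuous
  have hf' : Continuous (deriv f) := (derivCLM ℂ ℂ f).continuous
  have adu := adm_wt (M := M) (N := N) hp0 hR0 hT hN
  have hu := adu.cont
  have hdu := continuous_dwt (p := p) (M := M) hR0 hT
  set ρ := (1 + |b - a| / R) ^ N with hρ
  have hρ1 : 1 ≤ ρ := one_le_pow₀ (by
    have : 0 ≤ |b - a| / R := by positivity
    linarith)
  have hba : |b - a| = b - a := abs_of_nonneg (by linarith)
  have hratio : ∀ s ∈ Icc a b, ∀ t ∈ Icc a b, wt p R M T s ≤ ρ * wt p R M T t := by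
    intro s hs t ht
    refine (adu.ratio s t).trans ?_
    have : |s - t| ≤ |b - a| := by
      rw [hba, abs_le]; constructor <;> linarith [hs.1, hs.2, ht.1, ht.2]
    have h3 : (1 + |s - t| / R) ^ N ≤ ρ := by
      rw [hρ]
      have : 1 + |s - t| / R ≤ 1 + |b - a| / R := by gcongr
      exact pow_le_pow_left₀ (by positivity) this N
    exact mul_le_mul_of_nonneg_right h3 (wt_pos hR0 hT t).le
  have hBc : Continuous (fun t => base R t ^ (p - 1)) :=
    (continuous_base R).rpow_const (fun x => Or.inl (base_pos hR0 x).ne')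
  have hB0 : ∀ t, 0 < base R t ^ (p - 1) := fun t => rpow_pos_of_pos (base_pos hR0 t) _
  set Bm := (max (base R a) (base R b)) ^ (p - 1) with hBm
  have hBt : ∀ t ∈ Icc a b, base R t ^ (p - 1) ≤ Bm := by
    intro t ht
    apply rpow_le_rpow (base_pos hR0 t).le _ (by linarith)
    rcases le_or_gt 0 t with h0 | h0
    · apply le_max_of_le_right
      apply base_mono
      rw [abs_of_nonneg h0, abs_of_nonneg (by linarith [ht.2])]
      exact ht.2
    · apply le_max_of_le_left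
      apply base_mono
      rw [abs_of_neg h0, abs_of_neg (by linarith [ht.1])]
      linarith [ht.1]
  have hBm1 : 1 ≤ Bm := by
    apply one_le_rpow _ (by linarith)
    exact le_max_of_le_left (hR.trans (le_base R a))
  have key := gap_weighted (ρ := ρ) (Bm := Bm) (k := k) hab hu hBc (fun t => wt_pos hR0 hT t)
    hρ1 hBm1 hk0 hk1 (fun t ht => hratio t ht a ⟨le_refl _, hab⟩)
    (fun t ht => hratio a ⟨le_refl _, hab⟩ t ht) hB0 hBt (by rw [hba] at h1; exact h1) f
  have hsk1 : √k < 1 := by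
    rw [← Real.sqrt_one]; exact Real.sqrt_lt_sqrt hk0.le hk1
  have htan0 : 0 ≤ Real.tan (π / 2 * √k) := by
    apply Real.tan_nonneg_of_nonneg_of_le_pi_div_two
    · positivity
    · nlinarith [Real.pi_pos]
  have hρ4 : ρ ^ 4 ≤ 16 := by
    calc ρ ^ 4 ≤ 2 ^ 4 := by gcongr
      _ = 16 := by norm_num
  have key2 : ∫ t in a..b, (wt p R M T t * ‖f t‖) ^ 2 ≤
      k / (4 * π ^ 2) * (∫ t in a..b, (dwt p R M T t * ‖deriv f t‖) ^ 2) +
      16 * Real.tan (π / 2 * √k) *
        ((wt p R M T a * ‖f a‖) ^ 2 + (wt p R M T b * ‖f b‖) ^ 2) := by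
    refine key.trans ?_
    unfold dwt
    gcongr
  rw [intervalIntegral.integral_of_le hab, intervalIntegral.integral_of_le hab] at key2
  have i1 : IntegrableOn (fun t => (wt p R M T t * ‖f t‖) ^ 2) (Ioc a b) :=
    (Continuous.integrableOn_Icc (by fun_prop)).mono_set Ioc_subset_Icc_self
  have i2 : IntegrableOn (fun t => (dwt p R M T t * ‖deriv f t‖) ^ 2) (Ioc a b) :=
    (Continuous.integrableOn_Icc (by fun_prop)).mono_set Ioc_subset_Icc_self
  rw [← ofReal_integral_eq_lintegral_ofReal i1 (ae_of_all _ fun t => by positivity),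
    ← ofReal_integral_eq_lintegral_ofReal i2 (ae_of_all _ fun t => by positivity),
    ← ENNReal.ofReal_mul (by positivity), ← ENNReal.ofReal_add (by positivity) (by positivity),
    ← ENNReal.ofReal_mul (by positivity), ← ENNReal.ofReal_add]
  · exact ENNReal.ofReal_le_ofReal key2
  · exact mul_nonneg (by positivity) (integral_nonneg fun t => by positivity)
  · positivity

/-- weighted sampling energy -/
noncomputable def sn (w : ℝ → ℝ) (x : ℤ → ℝ) (f : ℝ → ℂ) : ℝ≥0∞ :=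
  ∑' n : ℤ, ENNReal.ofReal ((w (x n) * ‖f (x n)‖) ^ 2)

/-- the gap inequality on the line -/
theorem gap_main {p : ℝ} (hp : 1 < p) {x : ℤ → ℝ} (hx : SuperC p x) :
    ∃ k : ℝ, 0 < k ∧ k < 1 ∧ ∀ R : ℝ, 1 ≤ R → ∀ M : ℕ, ∃ C : ℝ, 0 ≤ C ∧ ∀ T > 0,
      ∀ f : 𝓢(ℝ, ℂ), en (wt p R M T) f ≤
        ENNReal.ofReal (k / (4 * π ^ 2)) * en (dwt p R M T) (deriv f) +
        ENNReal.ofReal C * (sn (wt p R M T) x f + en 1 f) := by
  obtain ⟨k, hk0, hk1, hk⟩ := hx.eventually_gap hp
  refine ⟨k, hk0, hk1, ?_⟩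
  intro R hR M
  have hR0 : 0 < R := by linarith
  have hp0 : 0 ≤ p := by linarith
  obtain ⟨N, hN⟩ := exists_nat_ge (p * (M + 1))
  have hev := hk R hR N
  rw [Filter.eventually_cofinite] at hev
  set F : Set ℤ := {n | ¬ (2 * ((1 + |x (n + 1) - x n| / R) ^ N) ^ 2 *
        (max (base R (x n)) (base R (x (n + 1)))) ^ (p - 1) * |x (n + 1) - x n| ≤ k ∧
      (1 + |x (n + 1) - x n| / R) ^ N ≤ 2)} with hF
  -- radius
  obtain ⟨r, hr⟩ : ∃ r : ℝ, ∀ n ∈ F, |x n| ≤ r ∧ |x (n + 1)| ≤ r := by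
    obtain ⟨r, hr⟩ := (hev.image (fun n => max |x n| |x (n + 1)|)).bddAbove
    refine ⟨r, fun n hn => ?_⟩
    have := hr (mem_image_of_mem _ hn)
    exact ⟨(le_max_left _ _).trans this, (le_max_right _ _).trans this⟩
  set Cc := ((base R r ^ p) ^ (M + 1)) ^ 2 with hCc
  have hbr : 0 < base R r ^ p := rpow_pos_of_pos (base_pos hR0 r) _
  have hsk1 : √k < 1 := by
    rw [← Real.sqrt_one]; exact Real.sqrt_lt_sqrt hk0.le hk1
  have htan0 : 0 ≤ Real.tan (π / 2 * √k) := by
    apply Real.tan_nonneg_of_nonneg_of_le_pi_div_two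
    · positivity
    · nlinarith [Real.pi_pos]
  set C1 := 16 * Real.tan (π / 2 * √k) with hC1
  have hC10 : 0 ≤ C1 := by positivity
  refine ⟨max Cc (2 * C1), le_max_of_le_left (by positivity), ?_⟩
  intro T hT f
  set g : ℝ → ℝ≥0∞ := fun t => ENNReal.ofReal ((wt p R M T t * ‖f t‖) ^ 2) with hg
  set g' : ℝ → ℝ≥0∞ := fun t => ENNReal.ofReal ((dwt p R M T t * ‖deriv f t‖) ^ 2) with hg'
  -- covering
  have hcov : (univ : Set ℝ) ⊆ Icc (-r) r ∪ ⋃ n : ℤ, (if n ∈ F then ∅ else Ioc (x n) (x (n + 1))) := by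
    intro t _
    obtain ⟨n, hn⟩ := hx.cover t
    by_cases hnF : n ∈ F
    · left
      obtain ⟨h1, h2⟩ := hr n hnF
      have h3 := abs_le.1 h1
      have h4 := abs_le.1 h2
      exact ⟨by linarith [hn.1], by linarith [hn.2]⟩
    · right
      rw [mem_iUnion]
      refine ⟨n, ?_⟩
      rw [if_neg hnF]
      exact hn
  have hcentral : ∫⁻ t in Icc (-r) r, g t ≤ ENNReal.ofReal Cc * en 1 f := by
    calc ∫⁻ t in Icc (-r) r, g t
        ≤ ∫⁻ t in Icc (-r) r, ENNReal.ofReal Cc * ENNReal.ofReal ((1 * ‖f t‖) ^ 2) := by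
          apply setLIntegral_mono' measurableSet_Icc
          intro t ht
          rw [← ENNReal.ofReal_mul (by positivity)]
          apply ENNReal.ofReal_le_ofReal
          rw [mul_pow, one_mul]
          have h1 : wt p R M T t ≤ (base R r ^ p) ^ (M + 1) :=
            wt_le_central hp0 hR0 hT (abs_le.2 ⟨by linarith [ht.1], ht.2⟩)
          have h2 := pow_le_pow_left₀ (wt_pos hR0 hT t).le h1 2
          gcongr
      _ ≤ ∫⁻ t, ENNReal.ofReal Cc * ENNReal.ofReal ((1 * ‖f t‖) ^ 2) := setLIntegral_le_lintegral _ _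
      _ = _ := by
          rw [lintegral_const_mul' _ _ ENNReal.ofReal_ne_top]
          rfl
  have hgapn : ∀ n : ℤ, ∫⁻ t in (if n ∈ F then ∅ else Ioc (x n) (x (n + 1))), g t ≤
      ENNReal.ofReal (k / (4 * π ^ 2)) * (∫⁻ t in Ioc (x n) (x (n + 1)), g' t) +
      ENNReal.ofReal C1 * (g (x n) + g (x (n + 1))) := by
    intro n
    by_cases hnF : n ∈ F
    · rw [if_pos hnF]; simp
    · rw [if_neg hnF]
      have hn : (2 * ((1 + |x (n + 1) - x n| / R) ^ N) ^ 2 *
        (max (base R (x n)) (base R (x (n + 1)))) ^ (p - 1) * |x (n + 1) - x n| ≤ k ∧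
        (1 + |x (n + 1) - x n| / R) ^ N ≤ 2) := by
        by_contra hcon
        exact hnF hcon
      exact gap_lintegral hp hR hT hN (hx.mono (by omega)) hk0 hk1 hn.1 hn.2 f
  have hsum1 : ∑' n : ℤ, ∫⁻ t in Ioc (x n) (x (n + 1)), g' t ≤ en (dwt p R M T) (deriv f) := by
    rw [← lintegral_iUnion (fun n => measurableSet_Ioc) hx.disj]
    exact setLIntegral_le_lintegral _ _
  have hsum2 : ∑' n : ℤ, g (x (n + 1)) = ∑' n : ℤ, g (x n) :=
    (Equiv.addRight (1 : ℤ)).tsum_eq (fun n => g (x n))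
  calc en (wt p R M T) f = ∫⁻ t in univ, g t := by rw [setLIntegral_univ]; rfl
    _ ≤ ∫⁻ t in Icc (-r) r ∪ ⋃ n : ℤ, (if n ∈ F then ∅ else Ioc (x n) (x (n + 1))), g t :=
        lintegral_mono_set hcov
    _ ≤ (∫⁻ t in Icc (-r) r, g t) +
        ∫⁻ t in ⋃ n : ℤ, (if n ∈ F then ∅ else Ioc (x n) (x (n + 1))), g t := lintegral_union_le _ _ _
    _ ≤ ENNReal.ofReal Cc * en 1 f +
        ∑' n : ℤ, ∫⁻ t in (if n ∈ F then ∅ else Ioc (x n) (x (n + 1))), g t := by
        gcongr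
        exact lintegral_iUnion_le _ _
    _ ≤ ENNReal.ofReal Cc * en 1 f +
        ∑' n : ℤ, (ENNReal.ofReal (k / (4 * π ^ 2)) * (∫⁻ t in Ioc (x n) (x (n + 1)), g' t) +
          ENNReal.ofReal C1 * (g (x n) + g (x (n + 1)))) := by
        gcongr with n
        exact hgapn n
    _ = ENNReal.ofReal Cc * en 1 f + (ENNReal.ofReal (k / (4 * π ^ 2)) *
          (∑' n : ℤ, ∫⁻ t in Ioc (x n) (x (n + 1)), g' t) +
          ENNReal.ofReal C1 * (2 * ∑' n : ℤ, g (x n))) := by
        rw [ENNReal.tsum_add, ENNReal.tsum_mul_left, ENNReal.tsum_mul_left, ENNReal.tsum_add, hsum2,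
          two_mul]
    _ ≤ ENNReal.ofReal Cc * en 1 f + (ENNReal.ofReal (k / (4 * π ^ 2)) *
          en (dwt p R M T) (deriv f) +
          ENNReal.ofReal C1 * (2 * ∑' n : ℤ, g (x n))) := by gcongr
    _ = ENNReal.ofReal (k / (4 * π ^ 2)) * en (dwt p R M T) (deriv f) +
        (ENNReal.ofReal (2 * C1) * sn (wt p R M T) x f + ENNReal.ofReal Cc * en 1 f) := by
        have : ENNReal.ofReal (2 * C1) = ENNReal.ofReal C1 * 2 := by
          rw [mul_comm, ENNReal.ofReal_mul hC10]; simp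
        rw [this]
        unfold sn
        ring
    _ ≤ ENNReal.ofReal (k / (4 * π ^ 2)) * en (dwt p R M T) (deriv f) +
        (ENNReal.ofReal (max Cc (2 * C1)) * sn (wt p R M T) x f +
          ENNReal.ofReal (max Cc (2 * C1)) * en 1 f) := by
        gcongr
        · exact le_max_right _ _
        · exact le_max_left _ _
    _ = _ := by ring

end Pool.Agent.H32SF
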