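import Pool.Agent.Lib.MP_f612df_an_helper32.Energy

/-!
# MP_f612df_an: the phase space inequality
-/

namespace Pool.Agent.H32SF

open Real MeasureTheory SchwartzMap FourierTransform
open scoped ENNReal

lemma mom_congr_fourierInv (ψ : 𝓢(ℝ, ℂ)) : mom (𝓕⁻ ψ) 0 = mom ψ 0 := by
  unfold mom
  simp only [pow_zero, one_mul]
  have := integral_norm_sq_fourier (𝓕⁻ ψ)
  rw [FourierTransform.fourier_fourierInv_eq] at this
  exact this.symm

lemma DD_symm {w : ℝ → ℝ} (hw : Continuous w) (f ψ : 𝓢(ℝ, ℂ)) :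
    DD w (𝓕 f) (𝓕⁻ ψ) =
      ∫⁻ x, ∫⁻ ξ, ENNReal.ofReal ((w ξ * (2 * π * |x| * ‖V f ψ x ξ‖)) ^ 2) := by
  unfold DD
  rw [lintegral_lintegral_swap]
  · rw [← lintegral_neg_eq_self]
    congr 1
    ext x
    congr 1
    ext ξ
    rw [abs_neg, ← norm_V_symm]
  · apply Measurable.aemeasurable
    apply ENNReal.measurable_ofReal.comp
    apply Measurable.pow_const
    apply Measurable.fun_mul
    · exact hw.measurable.comp measurable_fst
    · apply Measurable.fun_mul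
      · exact (by fun_prop : Continuous (fun z : ℝ × ℝ => 2 * π * |z.2|)).measurable
      · exact (stronglyMeasurable_V (𝓕 f) (𝓕⁻ ψ)).measurable.norm

lemma UU_symm {w : ℝ → ℝ} (hw : Continuous w) (f ψ : 𝓢(ℝ, ℂ)) :
    UU w (𝓕 f) (𝓕⁻ ψ) =
      ∫⁻ x, ∫⁻ ξ, ENNReal.ofReal ((w ξ * ‖V f ψ x ξ‖) ^ 2) := by
  unfold UU
  rw [lintegral_lintegral_swap]
  · rw [← lintegral_neg_eq_self]
    congr 1
    ext x
    congr 1
    ext ξ
    rw [← norm_V_symm]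
  · apply Measurable.aemeasurable
    apply ENNReal.measurable_ofReal.comp
    apply Measurable.pow_const
    apply Measurable.fun_mul
    · exact hw.measurable.comp measurable_fst
    · exact (stronglyMeasurable_V (𝓕 f) (𝓕⁻ ψ)).measurable.norm

lemma two_sum {F1 F2 G1 G2 : ℝ → ℝ → ℝ≥0∞} {K : ℝ≥0∞} (hK : K ≠ ⊤)
    (mF : Measurable (fun z : ℝ × ℝ => F1 z.1 z.2))
    (mG : Measurable (fun z : ℝ × ℝ => G1 z.1 z.2))
    (hpt : ∀ x ξ, F1 x ξ + F2 x ξ ≤ K * (G1 x ξ + G2 x ξ)) :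
    (∫⁻ x, ∫⁻ ξ, F1 x ξ) + (∫⁻ x, ∫⁻ ξ, F2 x ξ) ≤
      K * ((∫⁻ x, ∫⁻ ξ, G1 x ξ) + (∫⁻ x, ∫⁻ ξ, G2 x ξ)) := by
  have mF1 : Measurable (fun x => ∫⁻ ξ, F1 x ξ) := mF.lintegral_prod_right'
  have mG1 : Measurable (fun x => ∫⁻ ξ, G1 x ξ) := mG.lintegral_prod_right'
  rw [← lintegral_add_left mF1, ← lintegral_add_left mG1, ← lintegral_const_mul' _ _ hK]
  apply lintegral_mono
  intro x
  have mFx : Measurable (fun ξ => F1 x ξ) := mF.comp measurable_prodMk_left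
  have mGx : Measurable (fun ξ => G1 x ξ) := mG.comp measurable_prodMk_left
  change (∫⁻ ξ, F1 x ξ) + (∫⁻ ξ, F2 x ξ) ≤ K * ((∫⁻ ξ, G1 x ξ) + (∫⁻ ξ, G2 x ξ))
  rw [← lintegral_add_left mFx, ← lintegral_add_left mGx, ← lintegral_const_mul' _ _ hK]
  exact lintegral_mono (fun ξ => hpt x ξ)

lemma const_mul_dbl {F : ℝ → ℝ → ℝ≥0∞} {K : ℝ≥0∞} (hK : K ≠ ⊤) :
    K * (∫⁻ x, ∫⁻ ξ, F x ξ) = ∫⁻ x, ∫⁻ ξ, K * F x ξ := by
  rw [← lintegral_const_mul' _ _ hK]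
  congr 1
  ext x
  rw [← lintegral_const_mul' _ _ hK]

/-- combining a pointwise inequality of symbols -/
lemma phase_ineq {w₁ w₂ u₁ u₂ : ℝ → ℝ} (hw₁ : Continuous w₁) (hw₂ : Continuous w₂)
    (hu₁ : Continuous u₁) (hu₂ : Continuous u₂) {a b : ℝ} (ha : 0 ≤ a) (hb : 0 ≤ b)
    (h : ∀ x ξ, a * (w₁ x ^ 2 * ξ ^ 2) + b * (w₂ ξ ^ 2 * x ^ 2) ≤ a * u₁ x ^ 2 + b * u₂ ξ ^ 2)
    (f ψ : 𝓢(ℝ, ℂ)) :
    ENNReal.ofReal a * DD w₁ f ψ + ENNReal.ofReal b * DD w₂ (𝓕 f) (𝓕⁻ ψ) ≤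
      ENNReal.ofReal (4 * π ^ 2) *
        (ENNReal.ofReal a * UU u₁ f ψ + ENNReal.ofReal b * UU u₂ (𝓕 f) (𝓕⁻ ψ)) := by
  rw [DD_symm hw₂, UU_symm hu₂]
  unfold DD UU
  have hV := (stronglyMeasurable_V f ψ).measurable.norm
  rw [const_mul_dbl ENNReal.ofReal_ne_top, const_mul_dbl ENNReal.ofReal_ne_top,
    const_mul_dbl ENNReal.ofReal_ne_top, const_mul_dbl ENNReal.ofReal_ne_top]
  apply two_sum ENNReal.ofReal_ne_top
  · apply Measurable.const_mul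
    apply ENNReal.measurable_ofReal.comp
    apply Measurable.pow_const
    apply Measurable.fun_mul
    · exact hw₁.measurable.comp measurable_fst
    · apply Measurable.fun_mul
      · exact (by fun_prop : Continuous (fun z : ℝ × ℝ => 2 * π * |z.2|)).measurable
      · exact hV
  · apply Measurable.const_mul
    apply ENNReal.measurable_ofReal.comp
    apply Measurable.pow_const
    apply Measurable.fun_mul
    · exact hu₁.measurable.comp measurable_fst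
    · exact hV
  intro x ξ
  generalize ‖V f ψ x ξ‖ = v
  rw [← ENNReal.ofReal_mul ha, ← ENNReal.ofReal_mul hb, ← ENNReal.ofReal_mul ha,
    ← ENNReal.ofReal_mul hb, ← ENNReal.ofReal_add (by positivity) (by positivity),
    ← ENNReal.ofReal_add (by positivity) (by positivity), ← ENNReal.ofReal_mul (by positivity)]
  apply ENNReal.ofReal_le_ofReal
  have h1 := h x ξ
  have h2 : 0 ≤ (2 * π * v) ^ 2 := by positivity
  have h3 := mul_le_mul_of_nonneg_left h1 h2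
  have ex : |x| ^ 2 = x ^ 2 := sq_abs x
  have eξ : |ξ| ^ 2 = ξ ^ 2 := sq_abs ξ
  calc a * (w₁ x * (2 * π * |ξ| * v)) ^ 2 + b * (w₂ ξ * (2 * π * |x| * v)) ^ 2
      = (2 * π * v) ^ 2 * (a * (w₁ x ^ 2 * |ξ| ^ 2) + b * (w₂ ξ ^ 2 * |x| ^ 2)) := by ring
    _ = (2 * π * v) ^ 2 * (a * (w₁ x ^ 2 * ξ ^ 2) + b * (w₂ ξ ^ 2 * x ^ 2)) := by
        rw [ex, eξ]
    _ ≤ _ := h3
    _ = _ := by ring

lemma en_lt_top {R : ℝ} {N : ℕ} {w : ℝ → ℝ} (hR : 1 ≤ R) (hw : Adm R N w) (f : 𝓢(ℝ, ℂ)) :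
    en w f < ⊤ := by
  have hR0 : 0 < R := by linarith
  calc en w f ≤ ∫⁻ t, ENNReal.ofReal (w 0 ^ 2) *
      ENNReal.ofReal ((1 + |t| / R) ^ (2 * N) * ‖f t‖ ^ 2) := by
        apply lintegral_mono
        intro t
        dsimp only
        rw [← ENNReal.ofReal_mul (by positivity)]
        apply ENNReal.ofReal_le_ofReal
        have h1 := hw.ratio t 0
        rw [sub_zero] at h1
        have h2 : w t ^ 2 ≤ ((1 + |t| / R) ^ N * w 0) ^ 2 := pow_le_pow_left₀ (hw.nonneg t) h1 2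
        calc (w t * ‖f t‖) ^ 2 = w t ^ 2 * ‖f t‖ ^ 2 := by ring
          _ ≤ ((1 + |t| / R) ^ N * w 0) ^ 2 * ‖f t‖ ^ 2 := by gcongr
          _ = _ := by ring
    _ = ENNReal.ofReal (w 0 ^ 2) * ∫⁻ t, ENNReal.ofReal ((1 + |t| / R) ^ (2 * N) * ‖f t‖ ^ 2) :=
        lintegral_const_mul' _ _ ENNReal.ofReal_ne_top
    _ ≤ ENNReal.ofReal (w 0 ^ 2) * ENNReal.ofReal (mom f 0 + mom f (2 * N) / R) := by
        gcongr
        exact lintegral_momR f (2 * N) hR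
    _ < ⊤ := ENNReal.mul_lt_top ENNReal.ofReal_lt_top ENNReal.ofReal_lt_top

lemma continuous_base (R : ℝ) : Continuous (base R) := by
  unfold base; fun_prop

lemma continuous_wt {p R : ℝ} {M : ℕ} {T : ℝ} (hR : 0 < R) (hT : 0 < T) :
    Continuous (wt p R M T) := by
  unfold wt rho
  have h1 : Continuous (fun x => base R x ^ p) :=
    (continuous_base R).rpow_const (fun x => Or.inl (base_pos hR x).ne')
  apply h1.mul
  apply Continuous.pow
  apply h1.div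
  · fun_prop
  · intro x
    have := rpow_pos_of_pos (base_pos hR x) p
    positivity

lemma continuous_dwt {p R : ℝ} {M : ℕ} {T : ℝ} (hR : 0 < R) (hT : 0 < T) :
    Continuous (dwt p R M T) := by
  unfold dwt
  apply (continuous_wt hR hT).div
  · exact (continuous_base R).rpow_const (fun x => Or.inl (base_pos hR x).ne')
  · intro x
    exact (rpow_pos_of_pos (base_pos hR x) _).ne'

lemma adm_wt {p R : ℝ} {M N : ℕ} {T : ℝ} (hp : 0 ≤ p) (hR : 0 < R) (hT : 0 < T)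
    (hN : p * (M + 1) ≤ N) : Adm R N (wt p R M T) :=
  ⟨continuous_wt hR hT, fun x => (wt_pos hR hT x).le, wt_ratio hp hR hT hN⟩

lemma adm_dwt {p R : ℝ} {M N : ℕ} {T : ℝ} (hp : 1 ≤ p) (hR : 0 < R) (hT : 0 < T)
    (hN : p * (M + 1) ≤ N) : Adm R N (dwt p R M T) :=
  ⟨continuous_dwt hR hT, fun x => (dwt_pos hR hT x).le, dwt_ratio hp hR hT hN⟩

lemma dwt_le {p R : ℝ} {M : ℕ} {T : ℝ} (hp : 1 ≤ p) (hR : 0 < R) (hT : 0 < T) (x : ℝ) :
    dwt p R M T x ≤ wt p R M T x / R ^ (p - 1) := by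
  unfold dwt
  apply div_le_div_of_nonneg_left (wt_pos hR hT x).le (rpow_pos_of_pos hR _)
  exact rpow_le_rpow hR.le (le_base R x) (by linarith)

lemma en_dwt_le {p R : ℝ} {M : ℕ} {T : ℝ} (hp : 1 ≤ p) (hR : 0 < R) (hT : 0 < T) (f : ℝ → ℂ) :
    en (dwt p R M T) f ≤ ENNReal.ofReal ((1 / R ^ (p - 1)) ^ 2) * en (wt p R M T) f := by
  unfold en
  rw [← lintegral_const_mul' _ _ ENNReal.ofReal_ne_top]
  apply lintegral_mono
  intro t
  dsimp only
  rw [← ENNReal.ofReal_mul (by positivity)]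
  apply ENNReal.ofReal_le_ofReal
  have h1 := dwt_le (M := M) hp hR hT t
  have h2 : dwt p R M T t * ‖f t‖ ≤ (1 / R ^ (p - 1)) * (wt p R M T t * ‖f t‖) := by
    calc dwt p R M T t * ‖f t‖ ≤ (wt p R M T t / R ^ (p - 1)) * ‖f t‖ := by gcongr
      _ = _ := by ring
  rw [← mul_pow]
  exact pow_le_pow_left₀ (mul_nonneg (dwt_pos hR hT t).le (norm_nonneg _)) h2 2

/-- pure real-number bookkeeping -/
lemma real_combine {c k k' ε δ P Q a b G H D E U W : ℝ} (hkc : k < c)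
    (hP : 0 < P) (hQ : 0 < Q) (ha : 0 ≤ a) (hb : 0 ≤ b) (hε : 0 < ε)
    (h1 : (c - k) * G ≤ (1 + ε) * D + k' * a)
    (h2 : (c - k) * H ≤ (1 + ε) * E + k' * b)
    (h3 : Q * D + P * E ≤ 4 * π ^ 2 * (Q * U + P * W))
    (h4 : U ≤ (c + k) * a) (h5 : W ≤ (c + k) * b)
    (hδ : ((1 + ε) * (4 * π ^ 2) * (c + k) + k') / (c - k) ≤ 4 * π ^ 2 * (1 + δ)) :
    Q * G + P * H ≤ 4 * π ^ 2 * (1 + δ) * (Q * a + P * b) := by
  have hck : 0 < c - k := by linarith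
  have e1 : (c - k) * (Q * G + P * H) ≤ (1 + ε) * (Q * D + P * E) + k' * (Q * a + P * b) := by
    nlinarith
  have e2 : (1 + ε) * (Q * D + P * E) ≤ (1 + ε) * (4 * π ^ 2 * (Q * U + P * W)) := by gcongr
  have e3 : Q * U + P * W ≤ (c + k) * (Q * a + P * b) := by nlinarith
  have e4 : (c - k) * (Q * G + P * H) ≤
      ((1 + ε) * (4 * π ^ 2) * (c + k) + k') * (Q * a + P * b) := by
    have : (1 + ε) * (4 * π ^ 2 * (Q * U + P * W)) ≤
        (1 + ε) * (4 * π ^ 2 * ((c + k) * (Q * a + P * b))) := by gcongr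
    nlinarith
  have e5 : Q * G + P * H ≤
      (((1 + ε) * (4 * π ^ 2) * (c + k) + k') / (c - k)) * (Q * a + P * b) := by
    rw [div_mul_eq_mul_div, le_div_iff₀ hck]
    linarith
  refine e5.trans ?_
  apply mul_le_mul_of_nonneg_right hδ
  positivity

end Pool.Agent.H32SF
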