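import Pool.Agent.Lib.MP_f612df_an_helper32.Weights

/-!
# MP_f612df_an: short-time Fourier transform
-/

namespace Pool.Agent.H32SF

open Real MeasureTheory SchwartzMap FourierTransform
open scoped ENNReal

/-- windowed function `t ↦ f t * ψ (t - x)` -/
noncomputable def win (f ψ : 𝓢(ℝ, ℂ)) (x : ℝ) : 𝓢(ℝ, ℂ) :=
  SchwartzMap.pairing (ContinuousLinearMap.mul ℂ ℂ) f (compSubConstCLM ℂ x ψ)

lemma win_apply (f ψ : 𝓢(ℝ, ℂ)) (x t : ℝ) : win f ψ x t = f t * ψ (t - x) := rfl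

/-- short-time Fourier transform -/
noncomputable def V (f ψ : 𝓢(ℝ, ℂ)) (x ξ : ℝ) : ℂ := 𝓕 (win f ψ x) ξ

lemma deriv_win (f ψ : 𝓢(ℝ, ℂ)) (x t : ℝ) :
    deriv (win f ψ x) t = deriv f t * ψ (t - x) + f t * deriv ψ (t - x) := by
  have h1 : HasDerivAt f (deriv f t) t := f.hasDerivAt t
  have h2 : HasDerivAt (fun s => ψ (s - x)) (deriv ψ (t - x)) t := by
    exact HasDerivAt.comp_sub_const t x (ψ.hasDerivAt (t - x))
  have h3 : HasDerivAt (win f ψ x) (deriv f t * ψ (t - x) + f t * deriv ψ (t - x)) t := h1.mul h2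
  exact h3.deriv

lemma norm_fourier_deriv (F : 𝓢(ℝ, ℂ)) (ξ : ℝ) :
    ‖𝓕 (derivCLM ℂ ℂ F) ξ‖ = 2 * π * |ξ| * ‖𝓕 F ξ‖ := by
  have h1 : 𝓕 (derivCLM ℂ ℂ F) ξ = 𝓕 (deriv (F : ℝ → ℂ)) ξ := by
    rw [fourier_coe]
    rfl
  have h2 := Real.fourier_deriv (f := (F : ℝ → ℂ)) F.integrable F.differentiable
    ((derivCLM ℂ ℂ F).integrable (μ := volume))
  rw [h1, h2]
  simp only [smul_eq_mul, norm_mul, Complex.norm_real, Complex.norm_I, Complex.norm_ofNat,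
    Real.norm_eq_abs, abs_of_pos Real.pi_pos]
  rw [fourier_coe]
  ring

lemma integrable_sq (F : 𝓢(ℝ, ℂ)) : Integrable (fun t => ‖F t‖ ^ 2) := by
  have := (F.memLp 2 (μ := volume)).integrable_norm_pow (by norm_num)
  simpa using this

lemma lintegral_fourier_sq (F : 𝓢(ℝ, ℂ)) :
    ∫⁻ ξ, ENNReal.ofReal (‖𝓕 F ξ‖ ^ 2) = ∫⁻ t, ENNReal.ofReal (‖F t‖ ^ 2) := by
  rw [← ofReal_integral_eq_lintegral_ofReal (integrable_sq _) (ae_of_all _ fun _ => by positivity),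
    ← ofReal_integral_eq_lintegral_ofReal (integrable_sq _) (ae_of_all _ fun _ => by positivity),
    integral_norm_sq_fourier]

lemma lintegral_V (f ψ : 𝓢(ℝ, ℂ)) (x : ℝ) :
    ∫⁻ ξ, ENNReal.ofReal (‖V f ψ x ξ‖ ^ 2) =
      ∫⁻ t, ENNReal.ofReal (‖f t‖ ^ 2) * ENNReal.ofReal (‖ψ (t - x)‖ ^ 2) := by
  unfold V
  rw [lintegral_fourier_sq]
  congr 1
  ext t
  rw [win_apply, norm_mul, mul_pow, ENNReal.ofReal_mul (by positivity)]

lemma lintegral_V_xi (f ψ : 𝓢(ℝ, ℂ)) (x : ℝ) :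
    ∫⁻ ξ, ENNReal.ofReal ((2 * π * |ξ| * ‖V f ψ x ξ‖) ^ 2) =
      ∫⁻ t, ENNReal.ofReal (‖deriv (win f ψ x) t‖ ^ 2) := by
  have := lintegral_fourier_sq (derivCLM ℂ ℂ (win f ψ x))
  simp_rw [norm_fourier_deriv] at this
  unfold V
  rw [this]
  rfl

/-- the STFT written as an integral -/
lemma V_eq (f ψ : 𝓢(ℝ, ℂ)) (x ξ : ℝ) :
    V f ψ x ξ = ∫ t : ℝ, 𝐞 (-(t * ξ)) • (f t * ψ (t - x)) := by
  unfold V
  rw [fourier_coe, Real.fourier_eq]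
  simp only [win_apply]
  congr 1
  ext t
  simp [mul_comm]

lemma stronglyMeasurable_V (f ψ : 𝓢(ℝ, ℂ)) :
    StronglyMeasurable (fun z : ℝ × ℝ => V f ψ z.1 z.2) := by
  simp_rw [V_eq]
  apply StronglyMeasurable.integral_prod_right'
    (f := fun w : (ℝ × ℝ) × ℝ => 𝐞 (-(w.2 * w.1.2)) • (f w.2 * ψ (w.2 - w.1.1)))
  apply Continuous.stronglyMeasurable
  have h1 := f.continuous
  have h2 := ψ.continuous
  have h3 := Real.continuous_fourierChar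
  simp only [Circle.smul_def]
  fun_prop

/-- time-frequency symmetry of the STFT -/
lemma norm_V_symm (f ψ : 𝓢(ℝ, ℂ)) (x ξ : ℝ) :
    ‖V f ψ x ξ‖ = ‖V (𝓕 f) (𝓕⁻ ψ) ξ (-x)‖ := by
  -- k(η) = e^{2πi x (η-ξ)} (𝓕⁻ψ)(η-ξ)
  have hk : Integrable (fun η : ℝ => 𝐞 (x * (η - ξ)) • (𝓕⁻ ψ) (η - ξ)) := by
    have h1 : Integrable (fun η : ℝ => (𝓕⁻ ψ) (η - ξ)) :=
      ((𝓕⁻ ψ).integrable (μ := volume)).comp_sub_right ξ
    refine h1.norm.mono' ?_ (ae_of_all _ fun η => ?_)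
    · apply Continuous.aestronglyMeasurable
      have h2 := (𝓕⁻ ψ).continuous
      have h3 := Real.continuous_fourierChar
      simp only [Circle.smul_def]
      fun_prop
    · rw [Circle.norm_smul]
  have hflip := VectorFourier.integral_bilin_fourierIntegral_eq_flip (μ := volume) (ν := volume)
    (e := 𝐞) (L := innerₗ ℝ) (ContinuousLinearMap.mul ℂ ℂ) Real.continuous_fourierChar
    continuous_inner (f := f) (f.integrable) hk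
  have hR : ∀ t : ℝ, VectorFourier.fourierIntegral 𝐞 volume (innerₗ ℝ).flip
      (fun η : ℝ => 𝐞 (x * (η - ξ)) • (𝓕⁻ ψ) (η - ξ)) t = 𝐞 (-(t * ξ)) • ψ (t - x) := by
    intro t
    have e1 : VectorFourier.fourierIntegral 𝐞 volume (innerₗ ℝ).flip
      (fun η : ℝ => 𝐞 (x * (η - ξ)) • (𝓕⁻ ψ) (η - ξ)) t =
        ∫ η : ℝ, 𝐞 (-(t * η)) • 𝐞 (x * (η - ξ)) • (𝓕⁻ ψ) (η - ξ) := by
      simp [VectorFourier.fourierIntegral]
    rw [e1]
    have e2 : ∫ η : ℝ, 𝐞 (-(t * η)) • 𝐞 (x * (η - ξ)) • (𝓕⁻ ψ) (η - ξ) =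
        ∫ s : ℝ, 𝐞 (-(t * (s + ξ))) • 𝐞 (x * s) • (𝓕⁻ ψ) s := by
      refine (integral_add_right_eq_self (μ := volume) (fun η : ℝ => 𝐞 (-(t * η)) •
        𝐞 (x * (η - ξ)) • (𝓕⁻ ψ) (η - ξ)) ξ).symm.trans ?_
      congr 1
      ext s
      simp
    rw [e2]
    have e3 : ∀ s : ℝ, 𝐞 (-(t * (s + ξ))) • 𝐞 (x * s) • (𝓕⁻ ψ) s =
        𝐞 (-(t * ξ)) • 𝐞 (-(s * (t - x))) • (𝓕⁻ ψ) s := by
      intro s
      rw [smul_smul, smul_smul, ← AddChar.map_add_eq_mul, ← AddChar.map_add_eq_mul]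
      congr 2
      ring
    simp_rw [e3]
    rw [Circle.smul_def]
    simp_rw [Circle.smul_def (𝐞 (-(t * ξ)))]
    rw [integral_smul]
    congr 1
    have e4 : 𝓕 (𝓕⁻ ψ) (t - x) = ψ (t - x) := by
      rw [FourierTransform.fourier_fourierInv_eq]
    rw [← e4, fourier_coe, Real.fourier_eq]
    congr 1
    ext s
    simp [mul_comm]
  have hL : V f ψ x ξ = ∫ t : ℝ, f t * (𝐞 (-(t * ξ)) • ψ (t - x)) := by
    rw [V_eq]
    congr 1
    ext t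
    simp only [Circle.smul_def, smul_eq_mul]
    ring
  have hmain : V f ψ x ξ = ∫ η : ℝ, 𝓕 f η * (𝐞 (x * (η - ξ)) • (𝓕⁻ ψ) (η - ξ)) := by
    rw [hL]
    simp_rw [← hR]
    exact hflip.symm
  have hmain2 : V f ψ x ξ = (𝐞 (-(x * ξ)) : ℂ) * V (𝓕 f) (𝓕⁻ ψ) ξ (-x) := by
    rw [hmain, V_eq, ← integral_const_mul]
    congr 1
    ext η
    simp only [Circle.smul_def, smul_eq_mul]
    have : (𝐞 (x * (η - ξ)) : ℂ) = (𝐞 (-(x * ξ)) : ℂ) * (𝐞 (-(η * -x)) : ℂ) := by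
      rw [← Circle.coe_mul, ← AddChar.map_add_eq_mul]
      congr 2
      ring
    rw [this]
    ring
  rw [hmain2, norm_mul, Circle.norm_coe, one_mul]

end Pool.Agent.H32SF
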