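import Mathlib

/-!
# MP_f612df_an: weights for the a-priori inequality
-/

namespace Pool.Agent.H32SF

open Real

/-- the profile `t ↦ t (t/(1+t/T))^M` of the energy weight -/
noncomputable def rho (M : ℕ) (T t : ℝ) : ℝ := t * (t / (1 + t / T)) ^ M

/-- the regularised absolute value `√(R²+x²)` -/
noncomputable def base (R x : ℝ) : ℝ := √(R ^ 2 + x ^ 2)

/-- the weight `ρ((R²+x²)^{p/2})` -/
noncomputable def wt (p R : ℝ) (M : ℕ) (T x : ℝ) : ℝ := rho M T (base R x ^ p)

/-- the derivative weight `wt / (R²+x²)^{(p-1)/2}` -/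
noncomputable def dwt (p R : ℝ) (M : ℕ) (T x : ℝ) : ℝ := wt p R M T x / base R x ^ (p - 1)

lemma base_pos {R : ℝ} (hR : 0 < R) (x : ℝ) : 0 < base R x := by
  unfold base; positivity

lemma le_base (R x : ℝ) : R ≤ base R x := by
  unfold base
  apply Real.le_sqrt_of_sq_le
  nlinarith [sq_nonneg x]

lemma abs_le_base (R x : ℝ) : |x| ≤ base R x := by
  unfold base
  apply Real.le_sqrt_of_sq_le
  rw [sq_abs]
  nlinarith [sq_nonneg R]

lemma base_sq (R x : ℝ) : base R x ^ 2 = R ^ 2 + x ^ 2 := by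
  unfold base
  rw [Real.sq_sqrt]
  positivity

lemma base_le_add {R : ℝ} (hR : 0 < R) (x y : ℝ) : base R x ≤ base R y + |x - y| := by
  have h1 := base_pos hR x
  have h2 := base_pos hR y
  have h3 := abs_le_base R y
  have h4 : 0 ≤ |x - y| := abs_nonneg _
  have h5 : y * (x - y) ≤ base R y * |x - y| := by
    calc y * (x - y) ≤ |y * (x - y)| := le_abs_self _
      _ = |y| * |x - y| := abs_mul _ _
      _ ≤ base R y * |x - y| := mul_le_mul_of_nonneg_right h3 h4
  conv_lhs => unfold base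
  rw [Real.sqrt_le_iff]
  constructor
  · positivity
  · have := base_sq R y
    have h6 := abs_mul_abs_self (x - y)
    nlinarith

lemma base_le_mul {R : ℝ} (hR : 0 < R) (x y : ℝ) :
    base R x ≤ base R y * (1 + |x - y| / R) := by
  have h1 := base_le_add hR x y
  have h2 := le_base R y
  have h4 : 0 ≤ |x - y| := abs_nonneg _
  have h5 : |x - y| ≤ base R y * (|x - y| / R) := by
    rw [mul_div_assoc', le_div_iff₀ hR]
    nlinarith
  nlinarith

lemma base_mono {R x y : ℝ} (h : |x| ≤ |y|) : base R x ≤ base R y := by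
  unfold base
  apply Real.sqrt_le_sqrt
  have := sq_le_sq' (by linarith [abs_nonneg x, abs_nonneg y]) h
  rw [sq_abs, sq_abs] at this
  linarith

/-! ### The profile -/

lemma rho_pos {M : ℕ} {T t : ℝ} (hT : 0 < T) (ht : 0 < t) : 0 < rho M T t := by
  unfold rho; positivity

/-- lower growth: `ρ(Y)/ρ(X) ≥ Y/X` -/
lemma rho_ratio_lower {M : ℕ} {T X Y : ℝ} (hT : 0 < T) (hX : 0 < X) (hXY : X ≤ Y) :
    Y * rho M T X ≤ X * rho M T Y := by
  have hY : 0 < Y := lt_of_lt_of_le hX hXY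
  unfold rho
  have h1 : X / (1 + X / T) ≤ Y / (1 + Y / T) := by
    rw [div_le_div_iff₀ (by positivity) (by positivity)]
    have : X * (1 + Y / T) = X + X * Y / T := by ring
    have : Y * (1 + X / T) = Y + X * Y / T := by ring
    nlinarith
  have h2 : (X / (1 + X / T)) ^ M ≤ (Y / (1 + Y / T)) ^ M :=
    pow_le_pow_left₀ (by positivity) h1 M
  have h3 : 0 < X * Y := by positivity
  nlinarith [mul_le_mul_of_nonneg_left h2 h3.le]

/-- upper growth: `ρ(Y)/ρ(X) ≤ (Y/X)^{M+1}` -/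
lemma rho_ratio_upper {M : ℕ} {T X Y : ℝ} (hT : 0 < T) (hX : 0 < X) (hXY : X ≤ Y) :
    rho M T Y ≤ (Y / X) ^ (M + 1) * rho M T X := by
  have hY : 0 < Y := lt_of_lt_of_le hX hXY
  unfold rho
  have h1 : Y / (1 + Y / T) ≤ (Y / X) * (X / (1 + X / T)) := by
    have : (Y / X) * (X / (1 + X / T)) = Y / (1 + X / T) := by
      field_simp
    rw [this]
    apply div_le_div_of_nonneg_left hY.le (by positivity)
    gcongr
  have h2 : (Y / (1 + Y / T)) ^ M ≤ ((Y / X) * (X / (1 + X / T))) ^ M :=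
    pow_le_pow_left₀ (by positivity) h1 M
  calc Y * (Y / (1 + Y / T)) ^ M ≤ Y * ((Y / X) * (X / (1 + X / T))) ^ M := by gcongr
    _ = (Y / X) ^ (M + 1) * (X * (X / (1 + X / T)) ^ M) := by
      rw [mul_pow, pow_succ]
      field_simp

lemma rho_mono {M : ℕ} {T X Y : ℝ} (hT : 0 < T) (hX : 0 < X) (hXY : X ≤ Y) :
    rho M T X ≤ rho M T Y := by
  have h := rho_ratio_lower (M := M) hT hX hXY
  have h1 := rho_pos (M := M) hT hX
  have : X * rho M T X ≤ X * rho M T Y := le_trans (by gcongr) h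
  exact le_of_mul_le_mul_left this hX

/-- the symbol inequality (Young) -/
lemma symbol_aux {p q : ℝ} (hp : 1 < p) (hq : 1 < q) (hpq : 1 / p + 1 / q = 1)
    {X Y a b : ℝ} (hX : 0 < X) (hXY : X ≤ Y) (ha : 0 < a) (hab : Y * a ≤ X * b) :
    q * (a ^ 2 * ((Y / X) ^ (2 / q))) + p * (b ^ 2 * ((X / Y) ^ (2 / p))) ≤ q * a ^ 2 + p * b ^ 2 := by
  have hY : 0 < Y := lt_of_lt_of_le hX hXY
  have hp0 : 0 < p := by linarith
  have hq0 : 0 < q := by linarith
  have hpq' : p + q = p * q := by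
    field_simp at hpq; linarith
  set r := Y / X with hr
  have hr1 : 1 ≤ r := by rw [hr, le_div_iff₀ hX]; linarith
  have hr0 : 0 < r := by linarith
  set s := r ^ (2 / q) with hs
  have hs0 : 0 < s := rpow_pos_of_pos hr0 _
  have hsq : s ^ q = r ^ 2 := by
    rw [hs, ← rpow_mul hr0.le, div_mul_cancel₀ _ hq0.ne', rpow_two]
  have hXYr : (X / Y) ^ (2 / p) = r ^ (-(2 / p)) := by
    rw [rpow_neg hr0.le, ← inv_rpow hr0.le, hr, inv_div]
  have hsr : r ^ 2 * r ^ (-(2 / p)) = s := by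
    rw [← rpow_two, ← rpow_add hr0, hs]
    congr 1
    field_simp at hpq ⊢
    linarith
  have hbr : r * a ≤ b := by
    rw [hr, div_mul_eq_mul_div, div_le_iff₀ hX]
    linarith
  have hb2 : r ^ 2 * a ^ 2 ≤ b ^ 2 := by
    rw [← mul_pow]
    exact pow_le_pow_left₀ (by positivity) hbr 2
  have hle1 : r ^ (-(2 / p)) ≤ 1 := by
    apply rpow_le_one_of_one_le_of_nonpos hr1
    have : 0 < 2 / p := by positivity
    linarith
  -- Young
  have hyoung : q * p * s ≤ p * r ^ 2 + q := by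
    have := young_inequality_of_nonneg hs0.le (zero_le_one) (p := q) (q := p)
      (by rw [Real.holderConjugate_iff]; constructor
          · exact hq
          · rw [← one_div, ← one_div]; linarith)
    rw [mul_one, hsq, one_rpow] at this
    calc q * p * s ≤ q * p * (r ^ 2 / q + 1 / p) := by gcongr
      _ = p * r ^ 2 + q := by field_simp
  rw [hXYr]
  have key : q * (a ^ 2 * s) + p * (r ^ 2 * a ^ 2 * r ^ (-(2 / p))) ≤
      q * a ^ 2 + p * (r ^ 2 * a ^ 2) := by
    have e1 : r ^ 2 * a ^ 2 * r ^ (-(2 / p)) = a ^ 2 * s := by rw [← hsr]; ring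
    rw [e1]
    have : a ^ 2 * (q * p * s) ≤ a ^ 2 * (p * r ^ 2 + q) := by gcongr
    have e2 : q * (a ^ 2 * s) + p * (a ^ 2 * s) = a ^ 2 * (q * p * s) := by
      have : a ^ 2 * (q * p * s) = (p * q) * (a ^ 2 * s) := by ring
      rw [this, ← hpq']; ring
    rw [e2]
    nlinarith
  have h3 : p * (b ^ 2 - r ^ 2 * a ^ 2) * r ^ (-(2 / p)) ≤ p * (b ^ 2 - r ^ 2 * a ^ 2) * 1 := by
    apply mul_le_mul_of_nonneg_left hle1
    apply mul_nonneg hp0.le
    linarith
  nlinarith

/-- the symbol inequality for the profile `ρ` -/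
lemma symbol_ineq {p q : ℝ} (hp : 1 < p) (hq : 1 < q) (hpq : 1 / p + 1 / q = 1)
    {M : ℕ} {T X Y : ℝ} (hT : 0 < T) (hX : 0 < X) (hY : 0 < Y) :
    q * (rho M T X ^ 2 * ((Y / X) ^ (2 / q))) + p * (rho M T Y ^ 2 * ((X / Y) ^ (2 / p))) ≤
      q * rho M T X ^ 2 + p * rho M T Y ^ 2 := by
  rcases le_total X Y with h | h
  · exact symbol_aux hp hq hpq hX h (rho_pos hT hX) (rho_ratio_lower hT hX h)
  · have := symbol_aux hq hp (by linarith) hY h (rho_pos (M := M) hT hY) (rho_ratio_lower hT hY h)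
    linarith

/-! ### The weights -/

lemma wt_pos {p R : ℝ} {M : ℕ} {T : ℝ} (hR : 0 < R) (hT : 0 < T) (x : ℝ) :
    0 < wt p R M T x := by
  unfold wt
  exact rho_pos hT (rpow_pos_of_pos (base_pos hR x) _)

lemma dwt_pos {p R : ℝ} {M : ℕ} {T : ℝ} (hR : 0 < R) (hT : 0 < T) (x : ℝ) :
    0 < dwt p R M T x := by
  unfold dwt
  exact div_pos (wt_pos hR hT x) (rpow_pos_of_pos (base_pos hR x) _)

lemma wt_mono {p R : ℝ} {M : ℕ} {T x y : ℝ} (hp : 0 ≤ p) (hR : 0 < R) (hT : 0 < T)
    (h : |x| ≤ |y|) : wt p R M T x ≤ wt p R M T y := by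
  unfold wt
  apply rho_mono hT (rpow_pos_of_pos (base_pos hR x) _)
  exact rpow_le_rpow (base_pos hR x).le (base_mono h) hp

/-- ratio bound for `wt`; `N ≥ p (M+1)` -/
lemma wt_ratio {p R : ℝ} {M N : ℕ} {T : ℝ} (hp : 0 ≤ p) (hR : 0 < R) (hT : 0 < T)
    (hN : p * (M + 1) ≤ N) (x y : ℝ) :
    wt p R M T x ≤ (1 + |x - y| / R) ^ N * wt p R M T y := by
  have hbx := base_pos hR x
  have hby := base_pos hR y
  have h1 : 1 ≤ 1 + |x - y| / R := by
    have : 0 ≤ |x - y| / R := by positivity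
    linarith
  rcases le_total |x| |y| with h | h
  · calc wt p R M T x ≤ wt p R M T y := wt_mono hp hR hT h
      _ = 1 * wt p R M T y := (one_mul _).symm
      _ ≤ _ := by
        gcongr
        · exact (wt_pos hR hT y).le
        · exact one_le_pow₀ h1
  · unfold wt
    have hX : 0 < base R y ^ p := rpow_pos_of_pos hby _
    have hXY : base R y ^ p ≤ base R x ^ p := rpow_le_rpow hby.le (base_mono h) hp
    refine (rho_ratio_upper hT hX hXY).trans ?_
    apply mul_le_mul_of_nonneg_right _ (rho_pos hT hX).le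
    rw [← div_rpow hbx.le hby.le, ← rpow_natCast (_ ^ p), ← rpow_mul (by positivity)]
    have h2 : base R x / base R y ≤ 1 + |x - y| / R := by
      rw [div_le_iff₀ hby]
      have := base_le_mul hR x y
      linarith
    calc (base R x / base R y) ^ (p * ((M + 1 : ℕ) : ℝ)) ≤
          (1 + |x - y| / R) ^ (p * ((M + 1 : ℕ) : ℝ)) := by
          apply rpow_le_rpow (by positivity) h2 (by positivity)
      _ ≤ (1 + |x - y| / R) ^ (N : ℝ) := by
          apply rpow_le_rpow_of_exponent_le h1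
          push_cast; exact hN
      _ = _ := rpow_natCast _ _

lemma dwt_ratio {p R : ℝ} {M N : ℕ} {T : ℝ} (hp : 1 ≤ p) (hR : 0 < R) (hT : 0 < T)
    (hN : p * (M + 1) ≤ N) (x y : ℝ) :
    dwt p R M T x ≤ (1 + |x - y| / R) ^ N * dwt p R M T y := by
  have hp0 : 0 ≤ p := by linarith
  have hbx := base_pos hR x
  have hby := base_pos hR y
  have h1 : 1 ≤ 1 + |x - y| / R := by
    have : 0 ≤ |x - y| / R := by positivity
    linarith
  rcases le_total |x| |y| with h | h
  · have hb : base R x ≤ base R y := base_mono h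
    have key : dwt p R M T x ≤ dwt p R M T y := by
      unfold dwt wt
      have hX : 0 < base R x ^ p := rpow_pos_of_pos hbx _
      have hY : 0 < base R y ^ p := rpow_pos_of_pos hby _
      have hXY : base R x ^ p ≤ base R y ^ p := rpow_le_rpow hbx.le hb hp0
      have hl := rho_ratio_lower (M := M) hT hX hXY
      have hx1 : base R x ^ p = base R x ^ (p - 1) * base R x := by
        rw [← rpow_add_one hbx.ne']; congr 1; ring
      have hy1 : base R y ^ p = base R y ^ (p - 1) * base R y := by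
        rw [← rpow_add_one hby.ne']; congr 1; ring
      have hpx : 0 < base R x ^ (p - 1) := rpow_pos_of_pos hbx _
      have hpy : 0 < base R y ^ (p - 1) := rpow_pos_of_pos hby _
      rw [div_le_div_iff₀ hpx hpy]
      have hr := rho_pos (M := M) hT hX
      have h5 : base R y ^ (p - 1) * base R y * rho M T (base R x ^ p) ≤
          base R x ^ (p - 1) * base R x * rho M T (base R y ^ p) := by
        rw [← hx1, ← hy1]; exact hl
      have h6 : base R x * (base R y ^ (p - 1) * rho M T (base R x ^ p)) ≤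
          base R x * (base R x ^ (p - 1) * rho M T (base R y ^ p)) := by
        calc base R x * (base R y ^ (p - 1) * rho M T (base R x ^ p)) ≤
            base R y * (base R y ^ (p - 1) * rho M T (base R x ^ p)) := by
              gcongr
          _ ≤ _ := by linarith
      have := le_of_mul_le_mul_left h6 hbx
      linarith
    calc dwt p R M T x ≤ dwt p R M T y := key
      _ = 1 * dwt p R M T y := (one_mul _).symm
      _ ≤ _ := by
        gcongr
        · exact (dwt_pos hR hT y).le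
        · exact one_le_pow₀ h1
  · have hb : base R y ≤ base R x := base_mono h
    have h3 := wt_ratio (M := M) hp0 hR hT hN x y
    unfold dwt
    have hpx : 0 < base R x ^ (p - 1) := rpow_pos_of_pos hbx _
    have hpy : 0 < base R y ^ (p - 1) := rpow_pos_of_pos hby _
    have h4 : base R y ^ (p - 1) ≤ base R x ^ (p - 1) := rpow_le_rpow hby.le hb (by linarith)
    calc wt p R M T x / base R x ^ (p - 1) ≤ wt p R M T x / base R y ^ (p - 1) := by
          apply div_le_div_of_nonneg_left (wt_pos hR hT x).le hpy h4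
      _ ≤ ((1 + |x - y| / R) ^ N * wt p R M T y) / base R y ^ (p - 1) := by gcongr
      _ = _ := by ring

/-- pointwise symbol inequality on phase space -/
lemma phase_symbol {p q : ℝ} (hp : 1 < p) (hq : 1 < q) (hpq : 1 / p + 1 / q = 1)
    {R : ℝ} {M : ℕ} {T : ℝ} (hR : 0 < R) (hT : 0 < T) (x ξ : ℝ) :
    q * (dwt p R M T x ^ 2 * ξ ^ 2) + p * (dwt q R M T ξ ^ 2 * x ^ 2) ≤
      q * wt p R M T x ^ 2 + p * wt q R M T ξ ^ 2 := by
  have hp0 : 0 < p := by linarith
  have hq0 : 0 < q := by linarith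
  have hbx := base_pos hR x
  have hbξ := base_pos hR ξ
  have hX : 0 < base R x ^ p := rpow_pos_of_pos hbx _
  have hY : 0 < base R ξ ^ q := rpow_pos_of_pos hbξ _
  have h := symbol_ineq hp hq hpq (M := M) hT hX hY
  have hpq' : p + q = p * q := by
    field_simp at hpq; linarith
  have e1 : (base R ξ ^ q / base R x ^ p) ^ (2 / q) = base R ξ ^ 2 / (base R x ^ (p - 1)) ^ 2 := by
    rw [div_rpow hY.le hX.le, ← rpow_mul hbξ.le, ← rpow_mul hbx.le,
      ← rpow_natCast (base R x ^ (p - 1)) 2, ← rpow_mul hbx.le]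
    have a1 : q * (2 / q) = ((2 : ℕ) : ℝ) := by
      push_cast; field_simp
    have a2 : p * (2 / q) = (p - 1) * ((2 : ℕ) : ℝ) := by
      push_cast; field_simp; linarith
    rw [a1, a2, rpow_natCast]
  have e2 : (base R x ^ p / base R ξ ^ q) ^ (2 / p) = base R x ^ 2 / (base R ξ ^ (q - 1)) ^ 2 := by
    rw [div_rpow hX.le hY.le, ← rpow_mul hbξ.le, ← rpow_mul hbx.le,
      ← rpow_natCast (base R ξ ^ (q - 1)) 2, ← rpow_mul hbξ.le]
    have a1 : p * (2 / p) = ((2 : ℕ) : ℝ) := by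
      push_cast; field_simp
    have a2 : q * (2 / p) = (q - 1) * ((2 : ℕ) : ℝ) := by
      push_cast; field_simp; linarith
    rw [a1, a2, rpow_natCast]
  rw [e1, e2] at h
  have hpx : 0 < base R x ^ (p - 1) := rpow_pos_of_pos hbx _
  have hpy : 0 < base R ξ ^ (q - 1) := rpow_pos_of_pos hbξ _
  have i1 : dwt p R M T x ^ 2 * ξ ^ 2 ≤
      rho M T (base R x ^ p) ^ 2 * (base R ξ ^ 2 / (base R x ^ (p - 1)) ^ 2) := by
    unfold dwt wt
    have : ξ ^ 2 ≤ base R ξ ^ 2 := by rw [base_sq]; nlinarith [sq_nonneg R]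
    calc (rho M T (base R x ^ p) / base R x ^ (p - 1)) ^ 2 * ξ ^ 2
        ≤ (rho M T (base R x ^ p) / base R x ^ (p - 1)) ^ 2 * base R ξ ^ 2 := by gcongr
      _ = _ := by rw [div_pow]; ring
  have i2 : dwt q R M T ξ ^ 2 * x ^ 2 ≤
      rho M T (base R ξ ^ q) ^ 2 * (base R x ^ 2 / (base R ξ ^ (q - 1)) ^ 2) := by
    unfold dwt wt
    have : x ^ 2 ≤ base R x ^ 2 := by rw [base_sq]; nlinarith [sq_nonneg R]
    calc (rho M T (base R ξ ^ q) / base R ξ ^ (q - 1)) ^ 2 * x ^ 2
        ≤ (rho M T (base R ξ ^ q) / base R ξ ^ (q - 1)) ^ 2 * base R x ^ 2 := by gcongr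
      _ = _ := by rw [div_pow]; ring
  calc q * (dwt p R M T x ^ 2 * ξ ^ 2) + p * (dwt q R M T ξ ^ 2 * x ^ 2)
      ≤ q * (rho M T (base R x ^ p) ^ 2 * (base R ξ ^ 2 / (base R x ^ (p - 1)) ^ 2)) +
        p * (rho M T (base R ξ ^ q) ^ 2 * (base R x ^ 2 / (base R ξ ^ (q - 1)) ^ 2)) := by gcongr
    _ ≤ _ := by unfold wt; exact h

end Pool.Agent.H32SF
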